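import Mathlib

/-!
# TOB.Geo: elementary inequalities for `x ^ n + x ^ i + 1`
-/

set_option autoImplicit false

namespace TOB

/-- the function `x ^ n + x ^ i + 1` -/
noncomputable def phi (n i : ℕ) (x : ℝ) : ℝ := x ^ n + x ^ i + 1

lemma pow_sub_le {u v : ℝ} (hu : 0 ≤ u) (huv : u ≤ v) (hv : 1 ≤ v) (n : ℕ) :
    v ^ n - u ^ n ≤ n * v ^ n * (v - u) := by
  induction n with
  | zero => simp
  | succ n ih =>
    have h1 : v ^ (n + 1) - u ^ (n + 1) = v * (v ^ n - u ^ n) + u ^ n * (v - u) := by ring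
    have h2 : u ^ n ≤ v ^ (n + 1) :=
      (pow_le_pow_left₀ hu huv n).trans (pow_le_pow_right₀ hv (Nat.le_succ n))
    have h3 : 0 ≤ v - u := by linarith
    have h4 : v * (v ^ n - u ^ n) ≤ v * (n * v ^ n * (v - u)) :=
      mul_le_mul_of_nonneg_left ih (by linarith)
    have h5 := mul_le_mul_of_nonneg_right h2 h3
    push_cast
    rw [h1]
    calc _ ≤ v * (n * v ^ n * (v - u)) + v ^ (n + 1) * (v - u) := add_le_add h4 h5
      _ = _ := by ring

lemma le_pow_sub {u v : ℝ} (hu : 0 ≤ u) (huv : u ≤ v) (n : ℕ) :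
    n * u ^ n * (v - u) ≤ u * (v ^ n - u ^ n) := by
  induction n with
  | zero => simp
  | succ n ih =>
    have h1 : u * (v ^ (n + 1) - u ^ (n + 1)) =
        u * (v ^ n * (v - u)) + u * (u * (v ^ n - u ^ n)) := by ring
    have h2 : u ^ n ≤ v ^ n := pow_le_pow_left₀ hu huv n
    have h3 : 0 ≤ v - u := by linarith
    have h4 : u * (n * u ^ n * (v - u)) ≤ u * (u * (v ^ n - u ^ n)) :=
      mul_le_mul_of_nonneg_left ih hu
    have h5 : u * (u ^ n * (v - u)) ≤ u * (v ^ n * (v - u)) :=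
      mul_le_mul_of_nonneg_left (mul_le_mul_of_nonneg_right h2 h3) hu
    push_cast
    rw [h1]
    calc _ = u * (u ^ n * (v - u)) + u * (n * u ^ n * (v - u)) := by ring
      _ ≤ _ := add_le_add h5 h4

lemma phi_mono (n i : ℕ) {x y : ℝ} (hx : 0 ≤ x) (hxy : x ≤ y) : phi n i x ≤ phi n i y := by
  unfold phi
  have h1 := pow_le_pow_left₀ hx hxy n
  have h2 := pow_le_pow_left₀ hx hxy i
  linarith

lemma phi_pos (n i : ℕ) {x : ℝ} (hx : 0 ≤ x) : 1 ≤ phi n i x := by
  unfold phi
  have h1 : 0 ≤ x ^ n := by positivity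
  have h2 : 0 ≤ x ^ i := by positivity
  linarith
  
lemma phi_cont (n i : ℕ) : Continuous (phi n i) := by
  unfold phi
  fun_prop

lemma phi_le {n i : ℕ} (hi : i ≤ n) {x : ℝ} (hx : 1 ≤ x) : phi n i x ≤ 3 * x ^ n := by
  unfold phi
  have h1 : x ^ i ≤ x ^ n := pow_le_pow_right₀ hx hi
  have h2 : 1 ≤ x ^ n := one_le_pow₀ hx
  linarith

/-- growth from above -/
lemma phi_sub_le {n i : ℕ} (hi : i ≤ n) {u v : ℝ} (hu : 0 ≤ u) (huv : u ≤ v) (hv : 1 ≤ v) :
    phi n i v - phi n i u ≤ 2 * n * phi n i v * (v - u) := by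
  have h1 := pow_sub_le hu huv hv n
  have h2 := pow_sub_le hu huv hv i
  have h3 : v ^ n ≤ phi n i v := by
    unfold phi
    have : 0 ≤ v ^ i := by positivity
    linarith
  have h4 : v ^ i ≤ phi n i v := by
    unfold phi
    have : 0 ≤ v ^ n := by positivity
    linarith
  have h5 : (i : ℝ) ≤ n := by exact_mod_cast hi
  have h6 : 0 ≤ v - u := by linarith
  have h7 : (n : ℝ) * v ^ n * (v - u) ≤ n * phi n i v * (v - u) := by gcongr
  have h8 : (i : ℝ) * v ^ i * (v - u) ≤ n * phi n i v * (v - u) := by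
    have : 0 ≤ v ^ i := by positivity
    gcongr
  have h9 : phi n i v - phi n i u = (v ^ n - u ^ n) + (v ^ i - u ^ i) := by
    unfold phi; ring
  rw [h9]
  linarith

/-- growth from below -/
lemma le_phi_sub {n i : ℕ} {u v : ℝ} (hu : 0 ≤ u) (huv : u ≤ v) :
    n * u ^ n * (v - u) ≤ u * (phi n i v - phi n i u) := by
  have h1 := le_pow_sub hu huv n
  have h2 := pow_le_pow_left₀ hu huv i
  have h9 : phi n i v - phi n i u = (v ^ n - u ^ n) + (v ^ i - u ^ i) := by
    unfold phi; ring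
  rw [h9, mul_add]
  have h3 : 0 ≤ u * (v ^ i - u ^ i) := mul_nonneg hu (by linarith)
  linarith

/-- if `x ^ j - x ^ i` moves by at most one then `phi n i` moves by at most a constant times `x ^ (n - j)` -/
lemma gap {A B : ℝ} (hA : 1 < A) {n i j : ℕ} (hij : i < j) (hjn : j ≤ n) (hj8 : n ≤ 8 * j)
    {x y : ℝ} (hx : A ≤ x) (hxy : x ≤ y) (hy : y ≤ B)
    (hd : (y ^ j - y ^ i) - (x ^ j - x ^ i) ≤ 1) (hbig : 8 * (A / (A - 1)) * B ≤ A ^ j) :
    phi n i y - phi n i x ≤ (24 * B + 1) * (A / (A - 1)) * x ^ (n - j) := by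
  have hA1 : 0 < A - 1 := by linarith
  have hx1 : 1 ≤ x := by linarith
  have hy1 : 1 ≤ y := by linarith
  have hB : 0 < B := by linarith
  set K : ℝ := A / (A - 1) with hK
  have hK0 : 0 < K := by positivity
  have hKe : K * (A - 1) = A := by rw [hK]; field_simp
  have hyx : 0 ≤ y - x := by linarith
  have hi0 : 0 ≤ y ^ i - x ^ i := by
    have := pow_le_pow_left₀ (by linarith : (0 : ℝ) ≤ x) hxy i
    linarith
  -- the small power moves less
  have h1 : A * (y ^ i - x ^ i) ≤ y ^ j - x ^ j := by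
    have e : y ^ j - x ^ j = y ^ (j - i) * (y ^ i - x ^ i) + x ^ i * (y ^ (j - i) - x ^ (j - i)) := by
      have e1 : y ^ j = y ^ (j - i) * y ^ i := by rw [← pow_add]; congr 1; omega
      have e2 : x ^ j = x ^ (j - i) * x ^ i := by rw [← pow_add]; congr 1; omega
      rw [e1, e2]; ring
    have h2 : A ≤ y ^ (j - i) := by
      have : y ^ 1 ≤ y ^ (j - i) := pow_le_pow_right₀ hy1 (by omega)
      rw [pow_one] at this
      linarith
    have h3 : 0 ≤ x ^ i * (y ^ (j - i) - x ^ (j - i)) := by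
      have := pow_le_pow_left₀ (by linarith : (0 : ℝ) ≤ x) hxy (j - i)
      have hxi : 0 ≤ x ^ i := by positivity
      exact mul_nonneg hxi (by linarith)
    have h4 := mul_le_mul_of_nonneg_right h2 hi0
    linarith
  have h2 : y ^ j - x ^ j ≤ K := by
    have h3 : (A - 1) * (y ^ j - x ^ j) ≤ A := by nlinarith
    have h4 : (A - 1) * (y ^ j - x ^ j) ≤ (A - 1) * K := by linarith
    exact le_of_mul_le_mul_left h4 hA1
  have h3 : (n : ℝ) * x ^ j * (y - x) ≤ 8 * B * K := by
    have h4 := le_pow_sub (by linarith : (0 : ℝ) ≤ x) hxy j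
    have h5 : x * (y ^ j - x ^ j) ≤ B * K := by
      have : 0 ≤ y ^ j - x ^ j := by
        have := pow_le_pow_left₀ (by linarith : (0 : ℝ) ≤ x) hxy j
        linarith
      exact mul_le_mul (by linarith) h2 this hB.le
    have h6 : (n : ℝ) ≤ 8 * j := by exact_mod_cast hj8
    have h7 : 0 ≤ x ^ j * (y - x) := by positivity
    have h8 := mul_le_mul_of_nonneg_right h6 h7
    nlinarith
  have hxj : 8 * K * B ≤ x ^ j :=
    hbig.trans (pow_le_pow_left₀ (by linarith) hx j)
  have hxj0 : 0 < x ^ j := by positivity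
  have h4 : (n : ℝ) * (y - x) ≤ 1 := by
    have : x ^ j * ((n : ℝ) * (y - x)) ≤ x ^ j * 1 := by
      calc x ^ j * ((n : ℝ) * (y - x)) = (n : ℝ) * x ^ j * (y - x) := by ring
        _ ≤ 8 * B * K := h3
        _ ≤ x ^ j * 1 := by linarith
    exact le_of_mul_le_mul_left this hxj0
  have h5 : y ^ n ≤ 3 * x ^ n := by
    have h6 : y ≤ x * Real.exp (y - x) := by
      have := Real.add_one_le_exp (y - x)
      nlinarith
    calc y ^ n ≤ (x * Real.exp (y - x)) ^ n := pow_le_pow_left₀ (by linarith) h6 n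
      _ = x ^ n * Real.exp (n * (y - x)) := by rw [mul_pow, ← Real.exp_nat_mul]
      _ ≤ x ^ n * Real.exp 1 := by gcongr
      _ ≤ x ^ n * 3 := by
          have := Real.exp_one_lt_d9
          gcongr
          linarith
      _ = _ := by ring
  have h6 : y ^ n - x ^ n ≤ 24 * B * K * x ^ (n - j) := by
    have h7 := pow_sub_le (by linarith : (0 : ℝ) ≤ x) hxy hy1 n
    have e : x ^ n = x ^ (n - j) * x ^ j := by rw [← pow_add]; congr 1; omega
    have hn0 : (0 : ℝ) ≤ n * (y - x) := by positivity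
    calc y ^ n - x ^ n ≤ n * y ^ n * (y - x) := h7
      _ = y ^ n * (n * (y - x)) := by ring
      _ ≤ 3 * x ^ n * (n * (y - x)) := mul_le_mul_of_nonneg_right h5 hn0
      _ = 3 * x ^ (n - j) * (n * x ^ j * (y - x)) := by rw [e]; ring
      _ ≤ 3 * x ^ (n - j) * (8 * B * K) := by
          have : 0 ≤ 3 * x ^ (n - j) := by positivity
          exact mul_le_mul_of_nonneg_left h3 this
      _ = _ := by ring
  have h7 : y ^ i - x ^ i ≤ K * x ^ (n - j) := by
    have h8 : 1 ≤ x ^ (n - j) := one_le_pow₀ hx1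
    have h9 : y ^ i - x ^ i ≤ K := by nlinarith
    nlinarith
  have h9 : phi n i y - phi n i x = (y ^ n - x ^ n) + (y ^ i - x ^ i) := by
    unfold phi; ring
  rw [h9]
  nlinarith

end TOB
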