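import Mathlib
import Pool.Agent.TOB.Geo

/-!
# TOB.Big: what large means
-/

set_option autoImplicit false

namespace TOB

open Filter

/-- the sieve level -/
noncomputable def yy (A : ℝ) (n : ℕ) : ℕ := ⌊A ^ (n / 50)⌋₊

/-- the constant of `gap` -/
noncomputable def KK (A B : ℝ) : ℝ := (24 * B + 1) * (A / (A - 1))

/-- `n` is large -/
structure Big (A B : ℝ) (n : ℕ) : Prop where
  n8 : 8 ≤ n
  four : 4 * (KK A B + 4) + 8 * (A / (A - 1)) * B ≤ A ^ (n / 4)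
  y2 : 2 ≤ yy A n
  logy : Real.log A / 100 * n ≤ Real.log (yy A n)
  y12 : (n : ℝ) ^ 2 * (yy A n : ℝ) ^ 12 ≤ A ^ (n / 2)

lemma big_ev {A : ℝ} (hA : 1 < A) (B : ℝ) : ∀ᶠ n : ℕ in atTop, Big A B n := by
  have hpow := tendsto_pow_atTop_atTop_of_one_lt hA
  have hlA : 0 < Real.log A := Real.log_pos hA
  have t4 := hpow.comp (Nat.tendsto_div_const_atTop (by norm_num : (4 : ℕ) ≠ 0))
  have t50 := hpow.comp (Nat.tendsto_div_const_atTop (by norm_num : (50 : ℕ) ≠ 0))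
  have e1 := t4.eventually_ge_atTop (4 * (KK A B + 4) + 8 * (A / (A - 1)) * B)
  have e2 := t50.eventually_ge_atTop 3
  have e3 : ∀ᶠ m : ℕ in atTop, (m : ℝ) ^ 2 / A ^ m ≤ 1 / 100 :=
    (tendsto_pow_const_div_const_pow_of_one_lt 2 hA).eventually (Iic_mem_nhds (by norm_num))
  have e3' := (Nat.tendsto_div_const_atTop (by norm_num : (5 : ℕ) ≠ 0)).eventually e3
  have e4 : ∀ᶠ n : ℕ in atTop, Real.log A + 1 ≤ n * (Real.log A / 100) :=
    ((tendsto_natCast_atTop_atTop (R := ℝ)).atTop_mul_const (by positivity)).eventually_ge_atTop _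
  filter_upwards [e1, e2, e3', e4, eventually_ge_atTop 10] with n h1 h2 h3 h4 h5
  have h1' : 4 * (KK A B + 4) + 8 * (A / (A - 1)) * B ≤ A ^ (n / 4) := h1
  have h2' : 3 ≤ A ^ (n / 50) := h2
  have h3' : ((n / 5 : ℕ) : ℝ) ^ 2 / A ^ (n / 5) ≤ 1 / 100 := h3
  have hy2 : 2 ≤ yy A n := Nat.le_floor (by norm_num; linarith)
  refine ⟨by omega, h1', hy2, ?_, ?_⟩
  · have h6 : A ^ (n / 50) / 2 ≤ (yy A n : ℝ) := by
      have := Nat.lt_floor_add_one (A ^ (n / 50))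
      unfold yy
      linarith
    have h7 := Real.log_le_log (by positivity) h6
    rw [Real.log_div (by positivity) (by norm_num), Real.log_pow] at h7
    have h8 : Real.log 2 < 0.6931471808 := Real.log_two_lt_d9
    have h9 : (n : ℝ) / 50 - 1 ≤ ((n / 50 : ℕ) : ℝ) := by
      have : n ≤ 50 * (n / 50) + 50 := by omega
      have : (n : ℝ) ≤ 50 * ((n / 50 : ℕ) : ℝ) + 50 := by exact_mod_cast this
      linarith
    have h10 := mul_le_mul_of_nonneg_right h9 hlA.le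
    nlinarith
  · have h6 : (yy A n : ℝ) ≤ A ^ (n / 50) := Nat.floor_le (by positivity)
    have h7 : (yy A n : ℝ) ^ 12 ≤ A ^ (12 * (n / 50)) := by
      calc (yy A n : ℝ) ^ 12 ≤ (A ^ (n / 50)) ^ 12 := pow_le_pow_left₀ (Nat.cast_nonneg _) h6 12
        _ = _ := by rw [← pow_mul, mul_comm]
    have h8 : (n : ℝ) ^ 2 ≤ A ^ (n / 5) := by
      rw [div_le_iff₀ (by positivity)] at h3'
      have : n ≤ 10 * (n / 5) := by omega
      have h9 : (n : ℝ) ≤ 10 * ((n / 5 : ℕ) : ℝ) := by exact_mod_cast this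
      have h10 : (n : ℝ) ^ 2 ≤ (10 * ((n / 5 : ℕ) : ℝ)) ^ 2 := pow_le_pow_left₀ (Nat.cast_nonneg _) h9 2
      nlinarith
    calc (n : ℝ) ^ 2 * (yy A n : ℝ) ^ 12 ≤ A ^ (n / 5) * A ^ (12 * (n / 50)) := by gcongr
      _ = A ^ (n / 5 + 12 * (n / 50)) := by rw [pow_add]
      _ ≤ A ^ (n / 2) := pow_le_pow_right₀ hA.le (by omega)

end TOB
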