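import Mathlib
import Pool.Agent.SWP.MertP
import Pool.Agent.TOB.Geo

/-!
# TOB.Low: the measure of the set of the `x` for which `⌊x ^ n + x ^ i + 1⌋` is prime
-/

set_option autoImplicit false

namespace TOB

open MeasureTheory Filter Pool.SWP

/-- the set of the `x` for which `⌊x ^ n + x ^ i + 1⌋` is prime -/
def EE (n i : ℕ) : Set ℝ := {x | (⌊phi n i x⌋₊).Prime}

lemma floor_meas (n i : ℕ) : Measurable fun x : ℝ => ⌊phi n i x⌋₊ :=
  Nat.measurable_floor.comp (phi_cont n i).measurable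

lemma EE_meas (n i : ℕ) : MeasurableSet (EE n i) :=
  floor_meas n i (MeasurableSet.of_discrete (s := {p : ℕ | p.Prime}))

lemma phi_strict {n : ℕ} (hn : 0 < n) (i : ℕ) {x y : ℝ} (hx : 0 ≤ x) (hxy : x < y) :
    phi n i x < phi n i y := by
  unfold phi
  have h1 := pow_lt_pow_left₀ hxy hx hn.ne'
  have h2 := pow_le_pow_left₀ hx hxy.le i
  linarith

/-- one integer contributes at least `1 / (4 n p)` -/
lemma piece {n i : ℕ} (hn : 0 < n) (hi : i ≤ n) {a b : ℝ} (ha : 1 ≤ a) (hab : a ≤ b) {p : ℕ}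
    (hp : 0 < p) (h1 : phi n i a ≤ p) (h2 : (p : ℝ) + 1 ≤ phi n i b) :
    ENNReal.ofReal (1 / (4 * n * p)) ≤ volume ({x : ℝ | ⌊phi n i x⌋₊ = p} ∩ Set.Ico a b) := by
  have hivt := intermediate_value_Icc hab (phi_cont n i).continuousOn
  obtain ⟨u, hu, hu1⟩ := hivt ⟨h1, by linarith⟩
  obtain ⟨v, hv, hv1⟩ := hivt (⟨by linarith, h2⟩ : (p : ℝ) + 1 ∈ Set.Icc (phi n i a) (phi n i b))
  have huv : u < v := by
    by_contra h
    push Not at h
    have := phi_mono n i (by linarith [hv.1] : (0 : ℝ) ≤ v) h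
    linarith
  have hp1 : (1 : ℝ) ≤ p := by exact_mod_cast hp
  have hn1 : (1 : ℝ) ≤ n := by exact_mod_cast hn
  have hlen : 1 / (4 * n * p) ≤ v - u := by
    have h3 := phi_sub_le hi (by linarith [hu.1] : (0 : ℝ) ≤ u) huv.le (by linarith [hv.1] : (1 : ℝ) ≤ v)
    rw [hu1, hv1] at h3
    rw [div_le_iff₀ (by positivity)]
    have h4 : (p : ℝ) + 1 ≤ 2 * p := by linarith
    have h5 : 0 ≤ (v - u) * n := by nlinarith
    nlinarith [mul_le_mul_of_nonneg_left h4 h5]
  calc ENNReal.ofReal (1 / (4 * n * p)) ≤ ENNReal.ofReal (v - u) := ENNReal.ofReal_le_ofReal hlen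
    _ = volume (Set.Ico u v) := by rw [Real.volume_Ico]
    _ ≤ _ := by
        refine measure_mono fun x hx => ⟨?_, hu.1.trans hx.1, lt_of_lt_of_le hx.2 hv.2⟩
        have hx0 : 0 ≤ x := by linarith [hu.1, hx.1]
        have e1 := phi_mono n i (by linarith [hu.1] : (0 : ℝ) ≤ u) hx.1
        have e2 := phi_strict hn i hx0 hx.2
        rw [hu1] at e1
        rw [hv1] at e2
        show ⌊phi n i x⌋₊ = p
        exact (Nat.floor_eq_iff (by linarith)).2 ⟨e1, e2⟩

lemma sum_le {n i : ℕ} (hn : 0 < n) (hi : i ≤ n) {a b : ℝ} (ha : 1 ≤ a) (hab : a ≤ b) (P : Finset ℕ)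
    (hP : ∀ p ∈ P, p.Prime ∧ phi n i a ≤ p ∧ (p : ℝ) + 1 ≤ phi n i b) :
    ENNReal.ofReal (∑ p ∈ P, 1 / (4 * (n : ℝ) * p)) ≤ volume (EE n i ∩ Set.Ico a b) := by
  rw [ENNReal.ofReal_sum_of_nonneg fun p _ => by positivity]
  calc ∑ p ∈ P, ENNReal.ofReal (1 / (4 * (n : ℝ) * p))
      ≤ ∑ p ∈ P, volume ({x : ℝ | ⌊phi n i x⌋₊ = p} ∩ Set.Ico a b) :=
        Finset.sum_le_sum fun p hp => piece hn hi ha hab (hP p hp).1.pos (hP p hp).2.1 (hP p hp).2.2
    _ = volume (⋃ p ∈ P, {x : ℝ | ⌊phi n i x⌋₊ = p} ∩ Set.Ico a b) := by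
        rw [measure_biUnion_finset]
        · intro p _ q _ hpq
          refine Set.disjoint_left.2 fun x hx hx' => hpq ?_
          exact hx.1.symm.trans hx'.1
        · intro p _
          exact (floor_meas n i (measurableSet_singleton p)).inter measurableSet_Ico
    _ ≤ _ := by
        refine measure_mono ?_
        refine Set.iUnion₂_subset fun p hp => ?_
        intro x hx
        refine ⟨?_, hx.2⟩
        show (⌊phi n i x⌋₊).Prime
        have : ⌊phi n i x⌋₊ = p := hx.1
        rw [this]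
        exact (hP p hp).1

lemma RS_ge : ∃ u₀ : ℕ, ∀ u v : ℕ, u₀ ≤ u → u ≤ v → ((v : ℝ) - u) / (2 * v) ≤ RS u v := by
  obtain ⟨u₁, hu₁⟩ := RS_block
  refine ⟨max u₁ 1, fun u v hu hle => ?_⟩
  have hu1 : u₁ ≤ u := (le_max_left _ _).trans hu
  have hu2 : 1 ≤ u := (le_max_right _ _).trans hu
  have hv0 : (0 : ℝ) < v := by exact_mod_cast lt_of_lt_of_le hu2 hle
  have key : ∀ v' : ℕ, u ≤ v' → ∑ j ∈ Finset.Ico u v', RS j (j + 1) = RS u v' := by
    intro v' hv'
    rw [RS_eq u v' hv']
    induction v', hv' using Nat.le_induction with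
    | base => simp
    | succ w hw ih =>
      rw [Finset.sum_Ico_succ_top hw, ih, RS_eq w (w + 1) (Nat.le_succ w)]
      ring
  rw [← key v hle]
  have h1 : ∑ j ∈ Finset.Ico u v, 1 / (2 * (v : ℝ)) ≤ ∑ j ∈ Finset.Ico u v, RS j (j + 1) := by
    refine Finset.sum_le_sum fun j hj => ?_
    rw [Finset.mem_Ico] at hj
    refine le_trans ?_ (hu₁ j (hu1.trans hj.1))
    have : (j : ℝ) + 1 ≤ v := by exact_mod_cast hj.2
    exact one_div_le_one_div_of_le (by positivity) (by linarith)
  refine le_trans ?_ h1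
  rw [Finset.sum_const, Nat.card_Ico, nsmul_eq_mul, Nat.cast_sub hle]
  rw [mul_one_div]

theorem low {A B : ℝ} (hA : 1 < A) (hAB : A ≤ B) : ∃ c : ℝ, 0 < c ∧ ∀ a b : ℝ, A ≤ a → a < b → b ≤ B →
    ∀ᶠ n : ℕ in atTop, ∀ i : ℕ, i ≤ n →
      ENNReal.ofReal (c * (b - a) / n) ≤ volume (EE n i ∩ Set.Ico a b) := by
  obtain ⟨u₀, hu₀⟩ := RS_ge
  have hB : 1 < B := by linarith
  have hlB : 0 < Real.log B := Real.log_pos hB
  refine ⟨1 / (16 * (B * Real.log B)), by positivity, fun a b ha hab hbB => ?_⟩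
  have ha1 : 1 < a := by linarith
  have hb1 : 1 < b := by linarith
  have hla : 0 < Real.log a := Real.log_pos ha1
  have hlb : 0 < Real.log b := Real.log_pos hb1
  have hlbB : Real.log b ≤ Real.log B := Real.log_le_log (by linarith) hbB
  -- the difference of the logarithms
  have hdiff : (b - a) / B ≤ Real.log b - Real.log a := by
    have h1 := Real.one_sub_inv_le_log_of_pos (by positivity : 0 < b / a)
    rw [Real.log_div (by positivity) (by positivity)] at h1
    have h2 : (b - a) / B ≤ 1 - (b / a)⁻¹ := by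
      rw [inv_div, div_le_iff₀ (by positivity)]
      have e : (1 - a / b) = (b - a) / b := by field_simp
      rw [e, div_mul_eq_mul_div, le_div_iff₀ (by positivity)]
      exact mul_le_mul_of_nonneg_left hbB (by linarith)
    linarith
  have hdpos : 0 < Real.log b - Real.log a := by
    have : 0 < (b - a) / B := div_pos (by linarith) (by linarith)
    linarith
  have ev1 : ∀ᶠ n : ℕ in atTop, (u₀ : ℝ) ≤ n * Real.log a := by
    have := (tendsto_natCast_atTop_atTop (R := ℝ)).atTop_mul_const hla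
    exact this.eventually_ge_atTop _
  have ev2 : ∀ᶠ n : ℕ in atTop, 8 ≤ n * (Real.log b - Real.log a) := by
    have := (tendsto_natCast_atTop_atTop (R := ℝ)).atTop_mul_const hdpos
    exact this.eventually_ge_atTop _
  filter_upwards [ev1, ev2, eventually_gt_atTop 0] with n h1 h2 hn i hi
  have hn0 : (0 : ℝ) < n := by exact_mod_cast hn
  set u : ℕ := ⌈(n : ℝ) * Real.log a⌉₊ + 2 with hu
  set v : ℕ := ⌊(n : ℝ) * Real.log b⌋₊ with hv
  have hu1 : (n : ℝ) * Real.log a + 2 ≤ u := by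
    rw [hu]; push_cast
    have := Nat.le_ceil ((n : ℝ) * Real.log a)
    linarith
  have hu2 : (u : ℝ) ≤ n * Real.log a + 3 := by
    rw [hu]; push_cast
    have := Nat.ceil_lt_add_one (by positivity : 0 ≤ (n : ℝ) * Real.log a)
    linarith
  have hv1 : (v : ℝ) ≤ n * Real.log b := Nat.floor_le (by positivity)
  have hv2 : (n : ℝ) * Real.log b - 1 ≤ v := by
    have := Nat.lt_floor_add_one ((n : ℝ) * Real.log b)
    linarith
  have huv' : (n : ℝ) * (Real.log b - Real.log a) / 2 ≤ (v : ℝ) - u := by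
    linarith
  have huv : u ≤ v := by
    have : (u : ℝ) ≤ v := by linarith
    exact_mod_cast this
  have hu0 : u₀ ≤ u := by
    have : (u₀ : ℝ) ≤ u := by linarith
    exact_mod_cast this
  have hv0 : (0 : ℝ) < v := by
    have : (0 : ℝ) ≤ u := Nat.cast_nonneg u
    linarith
  have hRS := hu₀ u v hu0 huv
  -- the exponentials
  have heu : 3 * a ^ n ≤ Real.exp u := by
    calc 3 * a ^ n ≤ Real.exp 2 * a ^ n := by
          have h3 : (3 : ℝ) ≤ Real.exp 2 := by
            have := Real.add_one_le_exp (2 : ℝ)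
            linarith
          have : 0 ≤ a ^ n := by positivity
          exact mul_le_mul_of_nonneg_right h3 this
      _ = Real.exp (n * Real.log a + 2) := by
          rw [Real.exp_add, Real.exp_nat_mul, Real.exp_log (by linarith)]
          ring
      _ ≤ _ := Real.exp_le_exp.2 hu1
  have hev : Real.exp v ≤ b ^ n := by
    calc Real.exp v ≤ Real.exp (n * Real.log b) := Real.exp_le_exp.2 hv1
      _ = _ := by rw [Real.exp_nat_mul, Real.exp_log (by linarith)]
  have hP : ∀ p ∈ QQ u v, p.Prime ∧ phi n i a ≤ p ∧ (p : ℝ) + 1 ≤ phi n i b := by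
    intro p hp
    unfold QQ at hp
    rw [Finset.mem_filter, Finset.mem_Ioc] at hp
    refine ⟨hp.2, ?_, ?_⟩
    · have h3 := Nat.lt_of_floor_lt hp.1.1
      have h4 := phi_le hi ha1.le
      linarith
    · have h3 := (Nat.le_floor_iff (Real.exp_pos _).le).1 hp.1.2
      unfold phi
      have : 0 ≤ b ^ i := by positivity
      linarith
  refine le_trans (ENNReal.ofReal_le_ofReal ?_) (sum_le hn hi ha1.le hab.le (QQ u v) hP)
  have e : ∑ p ∈ QQ u v, 1 / (4 * (n : ℝ) * p) = RS u v / (4 * n) := by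
    unfold RS
    rw [Finset.sum_div]
    refine Finset.sum_congr rfl fun p hp => ?_
    unfold QQ at hp
    rw [Finset.mem_filter] at hp
    have : (0 : ℝ) < p := by exact_mod_cast hp.2.pos
    field_simp
  rw [e]
  have h5 : (b - a) / (4 * (B * Real.log B)) ≤ RS u v := by
    refine le_trans ?_ hRS
    rw [div_le_div_iff₀ (by positivity) (by positivity)]
    have h6 : (b - a) * (2 * v) ≤ (b - a) * (2 * (n * Real.log B)) := by
      have : 0 ≤ b - a := by linarith
      refine mul_le_mul_of_nonneg_left ?_ this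
      have := mul_le_mul_of_nonneg_left hlbB hn0.le
      linarith
    have h7 : (b - a) ≤ B * (Real.log b - Real.log a) := by
      rw [div_le_iff₀ (by linarith)] at hdiff
      linarith
    have h8 : (n * (b - a) / 2) * (4 * Real.log B) ≤ B * ((v : ℝ) - u) * (4 * Real.log B) := by
      refine mul_le_mul_of_nonneg_right ?_ (by positivity)
      have h9 : B * ((n : ℝ) * (Real.log b - Real.log a) / 2) ≤ B * ((v : ℝ) - u) :=
        mul_le_mul_of_nonneg_left huv' (by linarith)
      have h10 := mul_le_mul_of_nonneg_left h7 hn0.le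
      nlinarith
    nlinarith
  rw [div_le_div_iff₀ hn0 (by positivity)]
  have h6 : 1 / (16 * (B * Real.log B)) * (b - a) * (4 * n) = (b - a) / (4 * (B * Real.log B)) * n := by
    field_simp
    ring
  rw [h6]
  exact mul_le_mul_of_nonneg_right h5 hn0.le

end TOB
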