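import Mathlib
import Pool.Agent.Lib.PrimePairsMoment

/-!
# TOB.Wt: the weights of the sieve bound and their sums
-/

set_option autoImplicit false

namespace TOB

open Finset Pool.Agent.Lib.PrimePairs

/-- the weight of the difference `h` -/
noncomputable def wt (h : ℕ) : ℝ := F (2 * h) ^ 2 + F (2 * (h + 1)) ^ 2

lemma wt_nonneg (h : ℕ) : 0 ≤ wt h := by unfold wt; positivity

lemma F_one {n : ℕ} (hn : 0 < n) : 1 ≤ F n := by
  unfold F
  have h1 : (1 : ℝ) / ((1 : ℕ) : ℝ) ≤ ∑ e ∈ n.divisors, (1 : ℝ) / e :=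
    Finset.single_le_sum (f := fun e : ℕ => (1 : ℝ) / e) (fun e _ => by positivity)
      (Nat.one_mem_divisors.2 hn.ne')
  simpa using h1

lemma one_le_wt {h : ℕ} (hh : 0 < h) : 1 ≤ wt h := by
  unfold wt
  have h1 : 1 ≤ F (2 * h) := F_one (by omega)
  have h2 : 0 ≤ F (2 * (h + 1)) ^ 2 := sq_nonneg _
  nlinarith

lemma sq_le_four (x : ℝ) : x ^ 2 ≤ 1 + x ^ 4 := by nlinarith [sq_nonneg (x ^ 2 - 1), sq_nonneg (x ^ 2), sq_nonneg x]

lemma sum_even (H c : ℕ) (hc : c ≤ 1) : ∑ h ∈ Icc 1 H, F (2 * (h + c)) ^ 4 ≤ W ^ 4 * (2 * H + 2) := by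
  have h1 : ∑ h ∈ Icc 1 H, F (2 * (h + c)) ^ 4 = ∑ D ∈ (Icc 1 H).image (fun h => 2 * (h + c)), F D ^ 4 := by
    rw [Finset.sum_image]
    intro a _ b _ hab
    have : 2 * (a + c) = 2 * (b + c) := hab
    omega
  have h2 : ∑ D ∈ (Icc 1 H).image (fun h => 2 * (h + c)), F D ^ 4 ≤ ∑ D ∈ Icc 1 (2 * H + 2), F D ^ 4 := by
    refine Finset.sum_le_sum_of_subset_of_nonneg ?_ fun D _ _ => by positivity
    intro D hD
    obtain ⟨h, hh, rfl⟩ := Finset.mem_image.1 hD
    rw [Finset.mem_Icc] at hh ⊢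
    omega
  rw [h1]
  refine h2.trans ?_
  have h3 := sum_F_pow_four_le (2 * H + 2)
  push_cast at h3
  exact h3

lemma sum_wt : ∃ K : ℝ, 0 < K ∧ ∀ H : ℕ, ∑ h ∈ Icc 1 H, wt h ≤ K * H := by
  have hW : 0 ≤ W ^ 4 := by positivity
  refine ⟨2 + 8 * W ^ 4, by positivity, fun H => ?_⟩
  rcases Nat.eq_zero_or_pos H with rfl | hH
  · simp
  · have hH1 : (1 : ℝ) ≤ H := by exact_mod_cast hH
    calc ∑ h ∈ Icc 1 H, wt h ≤ ∑ h ∈ Icc 1 H, ((1 + F (2 * (h + 0)) ^ 4) + (1 + F (2 * (h + 1)) ^ 4)) := by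
          refine Finset.sum_le_sum fun h _ => ?_
          unfold wt
          exact add_le_add (sq_le_four _) (sq_le_four _)
      _ = 2 * H + (∑ h ∈ Icc 1 H, F (2 * (h + 0)) ^ 4 + ∑ h ∈ Icc 1 H, F (2 * (h + 1)) ^ 4) := by
          rw [Finset.sum_add_distrib, Finset.sum_add_distrib, Finset.sum_add_distrib]
          simp only [Finset.sum_const, Nat.card_Icc, nsmul_eq_mul, mul_one, Nat.add_sub_cancel]
          ring
      _ ≤ 2 * H + (W ^ 4 * (2 * H + 2) + W ^ 4 * (2 * H + 2)) := by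
          have h1 := sum_even H 0 (by norm_num)
          have h2 := sum_even H 1 le_rfl
          linarith
      _ ≤ (2 + 8 * W ^ 4) * H := by nlinarith

lemma abel {w : ℕ → ℝ} {K : ℝ} (hw : ∀ h, 0 ≤ w h) (hS : ∀ H : ℕ, ∑ h ∈ Icc 1 H, w h ≤ K * H)
    {H0 H1 : ℕ} (h0 : 1 ≤ H0) (h1 : H0 ≤ H1) :
    ∑ h ∈ Icc H0 H1, w h / h ≤ K * (1 + Real.log ((H1 : ℝ) / H0)) := by
  have hH0 : (0 : ℝ) < H0 := by exact_mod_cast h0
  have hK : 0 ≤ K := by
    have := hS 1
    simp only [Finset.Icc_self, Finset.sum_singleton, Nat.cast_one, mul_one] at this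
    exact (hw 1).trans this
  have key : ∀ H : ℕ, H0 ≤ H → ∑ h ∈ Icc H0 H, w h / h - (∑ h ∈ Icc 1 H, w h) / H ≤
      K * Real.log ((H : ℝ) / H0) := by
    intro H hH
    induction H, hH using Nat.le_induction with
    | base =>
      rw [div_self hH0.ne', Real.log_one, mul_zero, Finset.Icc_self, Finset.sum_singleton,
        sub_nonpos]
      refine div_le_div_of_nonneg_right ?_ hH0.le
      exact Finset.single_le_sum (f := w) (fun h _ => hw h) (Finset.mem_Icc.2 ⟨h0, le_rfl⟩)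
    | succ H hH ih =>
      have hHp : (0 : ℝ) < H := by exact_mod_cast (by omega : 0 < H)
      have e1 : ∑ h ∈ Icc H0 (H + 1), w h / h = ∑ h ∈ Icc H0 H, w h / h + w (H + 1) / ((H + 1 : ℕ) : ℝ) :=
        Finset.sum_Icc_succ_top (by omega) _
      have e2 : ∑ h ∈ Icc 1 (H + 1), w h = ∑ h ∈ Icc 1 H, w h + w (H + 1) :=
        Finset.sum_Icc_succ_top (by omega) _
      rw [e1, e2]
      have hSH := hS H
      have hS0 : 0 ≤ ∑ h ∈ Icc 1 H, w h := Finset.sum_nonneg fun h _ => hw h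
      have e3 : (∑ h ∈ Icc 1 H, w h) / H - (∑ h ∈ Icc 1 H, w h) / ((H : ℝ) + 1) ≤ K / ((H : ℝ) + 1) := by
        have : (∑ h ∈ Icc 1 H, w h) / H - (∑ h ∈ Icc 1 H, w h) / ((H : ℝ) + 1) =
            ((∑ h ∈ Icc 1 H, w h) / H) / ((H : ℝ) + 1) := by
          field_simp
          ring
        rw [this]
        refine div_le_div_of_nonneg_right ?_ (by positivity)
        rw [div_le_iff₀ hHp]
        exact hSH
      have e4 : 1 / ((H : ℝ) + 1) ≤ Real.log (((H : ℝ) + 1) / H0) - Real.log ((H : ℝ) / H0) := by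
        rw [Real.log_div (by positivity) hH0.ne', Real.log_div hHp.ne' hH0.ne']
        have h2 := Real.one_sub_inv_le_log_of_pos (by positivity : 0 < ((H : ℝ) + 1) / H)
        rw [Real.log_div (by positivity) hHp.ne', inv_div] at h2
        have h3 : 1 - (H : ℝ) / (H + 1) = 1 / ((H : ℝ) + 1) := by field_simp; ring
        rw [h3] at h2
        linarith
      have e5 := mul_le_mul_of_nonneg_left e4 hK
      push_cast
      rw [add_div]
      have e6 : K * (1 / ((H : ℝ) + 1)) = K / ((H : ℝ) + 1) := by ring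
      rw [e6] at e5
      linarith
  have h2 := key H1 h1
  have hH1 : (0 : ℝ) < H1 := by exact_mod_cast (by omega : 0 < H1)
  have h3 : (∑ h ∈ Icc 1 H1, w h) / H1 ≤ K := by
    rw [div_le_iff₀ hH1]
    exact hS H1
  linarith

end TOB
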