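import Mathlib
import Pool.Agent.TOB.Wt
import Pool.Agent.TOB.Low
import Pool.Agent.TOB.Big

/-!
# TOB.Pair: the measure of the set where `⌊x ^ n + x ^ i + 1⌋` and `⌊x ^ n + x ^ j + 1⌋` are both prime
-/

set_option autoImplicit false

namespace TOB

open MeasureTheory Filter Pool.Agent.Lib.PrimePairs

/-- the difference of the two functions -/
noncomputable def del (i j : ℕ) (x : ℝ) : ℝ := x ^ j - x ^ i

lemma del_mono {i j : ℕ} (hij : i ≤ j) {x y : ℝ} (hx : 1 ≤ x) (hxy : x ≤ y) : del i j x ≤ del i j y := by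
  unfold del
  have e1 : ∀ z : ℝ, z ^ j - z ^ i = z ^ i * (z ^ (j - i) - 1) := by
    intro z
    rw [mul_sub, ← pow_add, mul_one]
    congr 2
    omega
  rw [e1, e1]
  have h1 : x ^ i ≤ y ^ i := pow_le_pow_left₀ (by linarith) hxy i
  have h2 : x ^ (j - i) - 1 ≤ y ^ (j - i) - 1 := by
    have := pow_le_pow_left₀ (by linarith : (0 : ℝ) ≤ x) hxy (j - i)
    linarith
  have h3 : 0 ≤ x ^ (j - i) - 1 := by
    have : 1 ≤ x ^ (j - i) := one_le_pow₀ hx
    linarith
  have h4 : 0 ≤ y ^ i := by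
    have : 0 ≤ y := by linarith
    positivity
  exact mul_le_mul h1 h2 h3 h4

lemma one_le_KK {A B : ℝ} (hA : 1 < A) (hAB : A ≤ B) : 1 ≤ KK A B := by
  unfold KK
  have hA1 : 0 < A - 1 := by linarith
  have h1 : 1 ≤ A / (A - 1) := by
    rw [one_le_div hA1]
    linarith
  nlinarith

/-- the points of the cell are close to each other -/
lemma near {A B : ℝ} (hA : 1 < A) (hAB : A ≤ B) {n i j h : ℕ} (hbig : Big A B n) (hi4 : n / 4 ≤ i) (hij : i < j)
    (hj2 : j ≤ n / 2) {x y : ℝ} (hx : A ≤ x) (hxB : x ≤ B) (hy : A ≤ y) (hyB : y ≤ B)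
    (hdx : ⌊del i j x⌋₊ = h) (hdy : ⌊del i j y⌋₊ = h) :
    phi n i y ≤ phi n i x + KK A B * x ^ (n - j) ∧ phi n i x ≤ phi n i y + KK A B * x ^ (n - j) := by
  have hpos : ∀ z : ℝ, A ≤ z → 0 ≤ del i j z := by
    intro z hz
    unfold del
    have := pow_le_pow_right₀ (by linarith : (1 : ℝ) ≤ z) hij.le
    linarith
  have hKK : 0 < KK A B := lt_of_lt_of_le one_pos (one_le_KK hA hAB)
  have hj8 : n ≤ 8 * j := by
    have := hbig.n8
    omega
  have hjn : j ≤ n := by omega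
  have hb : 8 * (A / (A - 1)) * B ≤ A ^ j := by
    have h1 := hbig.four
    have h2 : A ^ (n / 4) ≤ A ^ j := pow_le_pow_right₀ hA.le (by omega)
    linarith
  have hx0 : 0 < x := by linarith
  have hy0 : 0 < y := by linarith
  have hxk : 0 ≤ KK A B * x ^ (n - j) := by positivity
  have hle : ∀ z w : ℝ, A ≤ z → A ≤ w → ⌊del i j z⌋₊ = h → ⌊del i j w⌋₊ = h → del i j w - del i j z ≤ 1 := by
    intro z w hz hw h1 h2
    have h3 := Nat.floor_le (hpos z hz)
    have h4 := Nat.lt_floor_add_one (del i j w)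
    rw [h1] at h3
    rw [h2] at h4
    linarith
  rcases le_total x y with hxy | hxy
  · have h1 := gap hA hij hjn hj8 hx hxy hyB (hle x y hx hy hdx hdy) hb
    have h2 := phi_mono n i hx0.le hxy
    have h3 : (24 * B + 1) * (A / (A - 1)) * x ^ (n - j) = KK A B * x ^ (n - j) := rfl
    rw [h3] at h1
    constructor <;> linarith
  · have h1 := gap hA hij hjn hj8 hy hxy hxB (hle y x hy hx hdy hdx) hb
    have h2 := phi_mono n i hy0.le hxy
    have h3 : (24 * B + 1) * (A / (A - 1)) * y ^ (n - j) = KK A B * y ^ (n - j) := rfl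
    rw [h3] at h1
    have h4 : KK A B * y ^ (n - j) ≤ KK A B * x ^ (n - j) :=
      mul_le_mul_of_nonneg_left (pow_le_pow_left₀ hy0.le hxy _) hKK.le
    constructor <;> linarith

/-- the constant of the cells -/
noncomputable def CC (A B : ℝ) : ℝ := 6 * B * (48 * KK A B / (Real.log A / 100) ^ 2 + 2)

lemma CC_pos {A B : ℝ} (hA : 1 < A) (hAB : A ≤ B) : 0 < CC A B := by
  unfold CC
  have h1 : 0 < KK A B := lt_of_lt_of_le one_pos (one_le_KK hA hAB)
  have h2 : 0 < Real.log A := Real.log_pos hA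
  have h3 : 0 < B := by linarith
  positivity

/-- one cell -/
lemma cell {A B : ℝ} (hA : 1 < A) (hAB : A ≤ B) {n i j h : ℕ} (hbig : Big A B n) (hi4 : n / 4 ≤ i) (hij : i < j)
    (hj2 : j ≤ n / 2) (hh : 1 ≤ h) {a b : ℝ} (ha : A ≤ a) (hb : b ≤ B) :
    volume ((EE n i ∩ EE n j ∩ Set.Ico a b) ∩ {x : ℝ | ⌊del i j x⌋₊ = h}) ≤
      ENNReal.ofReal (CC A B / n ^ 3 * (wt h / h)) := by
  set Z : Set ℝ := (EE n i ∩ EE n j ∩ Set.Ico a b) ∩ {x : ℝ | ⌊del i j x⌋₊ = h} with hZ
  rcases Set.eq_empty_or_nonempty Z with h0 | ⟨x0, hx0⟩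
  · rw [h0, measure_empty]
    exact zero_le
  have hmem : ∀ x ∈ Z, (A ≤ x ∧ x ≤ B) ∧ (⌊phi n i x⌋₊).Prime ∧ (⌊phi n j x⌋₊).Prime ∧ ⌊del i j x⌋₊ = h := by
    rintro x ⟨⟨⟨h1, h2⟩, h3⟩, h4⟩
    exact ⟨⟨ha.trans h3.1, h3.2.le.trans hb⟩, h1, h2, h4⟩
  obtain ⟨⟨hA0, hB0⟩, hp0, hq0, hd0⟩ := hmem x0 hx0
  have hn8 := hbig.n8
  have hn0 : (0 : ℝ) < n := by exact_mod_cast (by omega : 0 < n)
  have hin : i ≤ n := by omega
  have hx1 : 1 ≤ x0 := by linarith
  have hKK := one_le_KK hA hAB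
  have hBp : 0 < B := by linarith
  set X : ℝ := x0 ^ (n - j) with hX
  have hX1 : 1 ≤ X := one_le_pow₀ hx1
  have hKX : 1 ≤ KK A B * X := by nlinarith
  have hfac : x0 ^ n = X * x0 ^ j := by rw [hX, ← pow_add]; congr 1; omega
  have hxj : 4 * (KK A B + 4) ≤ x0 ^ j := by
    have h1 := hbig.four
    have h2 : A ^ (n / 4) ≤ A ^ j := pow_le_pow_right₀ hA.le (by omega)
    have h3 : A ^ j ≤ x0 ^ j := pow_le_pow_left₀ (by linarith) hA0 j
    have hA1 : 0 < A - 1 := by linarith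
    have h4 : 0 ≤ 8 * (A / (A - 1)) * B := by positivity
    linarith
  have hxn : 4 * (KK A B * X + 4) ≤ x0 ^ n := by
    rw [hfac]
    nlinarith
  have hphi0 : x0 ^ n ≤ phi n i x0 := by
    unfold phi
    have : 0 ≤ x0 ^ i := by positivity
    linarith
  set L : ℕ := ⌈KK A B * X⌉₊ with hL
  have hL1 : KK A B * X ≤ L := Nat.le_ceil _
  have hL2 : (L : ℝ) ≤ KK A B * X + 1 := (Nat.ceil_lt_add_one (by linarith)).le
  set Q0 : ℕ := ⌊phi n i x0⌋₊ with hQ0
  have hQ1 : (Q0 : ℝ) ≤ phi n i x0 := Nat.floor_le (by linarith [phi_pos n i (by linarith : (0 : ℝ) ≤ x0)])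
  have hQ2 : phi n i x0 < Q0 + 1 := Nat.lt_floor_add_one _
  have hQL : L + 2 ≤ Q0 := by
    have : (L : ℝ) + 2 ≤ Q0 := by linarith
    exact_mod_cast this
  set M : ℕ := Q0 - L - 2 with hM
  have hMr : (M : ℝ) = Q0 - L - 2 := by
    rw [hM, Nat.sub_sub, Nat.cast_sub hQL]
    push_cast
    ring
  set N : ℕ := 2 * L + 2 with hN
  have hNr : (N : ℝ) ≤ 6 * KK A B * X := by
    rw [hN]
    push_cast
    nlinarith
  set y : ℕ := yy A n with hy
  have hy2 : 2 ≤ y := hbig.y2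
  have hy2r : (2 : ℝ) ≤ y := by exact_mod_cast hy2
  have hXA : A ^ (n / 2) ≤ X := by
    calc A ^ (n / 2) ≤ A ^ (n - j) := pow_le_pow_right₀ hA.le (by omega)
      _ ≤ X := pow_le_pow_left₀ (by linarith) hA0 _
  have hy12 : (y : ℝ) ^ 12 ≤ X / n ^ 2 := by
    rw [le_div_iff₀ (by positivity)]
    have := hbig.y12
    linarith
  have hn1 : (1 : ℝ) ≤ n ^ 2 := by
    have : (1 : ℝ) ≤ n := by exact_mod_cast (by omega : 1 ≤ n)
    nlinarith
  have hyX : (y : ℝ) ^ 12 ≤ X := hy12.trans (div_le_self (by linarith) hn1)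
  have hyM : y ^ 2 ≤ M := by
    have h1 : (y : ℝ) ^ 2 ≤ (y : ℝ) ^ 12 := pow_le_pow_right₀ (by linarith) (by norm_num)
    have h2 : ((y ^ 2 : ℕ) : ℝ) ≤ M := by
      push_cast
      rw [hMr]
      have h3 : X ≤ KK A B * X := by nlinarith
      linarith
    exact_mod_cast h2
  have hlogy : 0 < Real.log y := Real.log_pos (by linarith)
  have hlA : 0 < Real.log A := Real.log_pos hA
  set κ : ℝ := Real.log A / 100 with hκ
  have hκ0 : 0 < κ := by positivity
  have hlog2 : (κ * n) ^ 2 ≤ Real.log y ^ 2 := pow_le_pow_left₀ (by positivity) hbig.logy 2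
  -- the set of the values
  set P₁ : Finset ℕ := (Finset.Ioc M (M + N)).filter (fun p => p.Prime ∧ (p + h).Prime) with hP₁
  set P₂ : Finset ℕ := (Finset.Ioc M (M + N)).filter (fun p => p.Prime ∧ (p + (h + 1)).Prime) with hP₂
  have c1 := card_prime_pairs_le M N h y hh hy2 hyM
  have c2 := card_prime_pairs_le M N (h + 1) y (by omega) hy2 hyM
  have hcard : (((P₁ ∪ P₂).card : ℕ) : ℝ) ≤ (48 * KK A B / κ ^ 2 + 2) * (wt h * X / n ^ 2) := by
    have h1 : (((P₁ ∪ P₂).card : ℕ) : ℝ) ≤ (P₁.card : ℝ) + P₂.card := by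
      exact_mod_cast Finset.card_union_le _ _
    have h2 : (8 * F (2 * h) ^ 2 * N / Real.log y ^ 2 + (y : ℝ) ^ 12) +
        (8 * F (2 * (h + 1)) ^ 2 * N / Real.log y ^ 2 + (y : ℝ) ^ 12) =
        8 * wt h * N / Real.log y ^ 2 + 2 * (y : ℝ) ^ 12 := by
      unfold wt
      ring
    have hwt := wt_nonneg h
    have h3 : 8 * wt h * N / Real.log y ^ 2 ≤ 8 * wt h * (6 * KK A B * X) / (κ * n) ^ 2 := by
      gcongr
    have h4 : 2 * (y : ℝ) ^ 12 ≤ 2 * (wt h * X / n ^ 2) := by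
      have h5 : X / n ^ 2 ≤ wt h * X / n ^ 2 := by
        gcongr
        have := one_le_wt (by omega : 0 < h)
        nlinarith
      linarith
    have h5 : 8 * wt h * (6 * KK A B * X) / (κ * n) ^ 2 = 48 * KK A B / κ ^ 2 * (wt h * X / n ^ 2) := by
      field_simp
      ring
    rw [h5] at h3
    have h6 : (P₁.card : ℝ) + P₂.card ≤ 8 * wt h * N / Real.log y ^ 2 + 2 * (y : ℝ) ^ 12 := by
      rw [← h2]
      exact add_le_add c1 c2
    rw [add_mul]
    linarith
  -- covering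
  have hcov : Z ⊆ ⋃ p ∈ P₁ ∪ P₂, Z ∩ {x : ℝ | ⌊phi n i x⌋₊ = p} := by
    intro x hx
    obtain ⟨⟨hxA, hxB⟩, hp, hq, hd⟩ := hmem x hx
    have hx1' : 1 ≤ x := by linarith
    obtain ⟨g1, g2⟩ := near hA hAB hbig hi4 hij hj2 hA0 hB0 hxA hxB hd0 hd
    have hphix := phi_pos n i (by linarith : (0 : ℝ) ≤ x)
    have f1 : ((⌊phi n i x⌋₊ : ℕ) : ℝ) ≤ phi n i x := Nat.floor_le (by linarith)
    have f2 : phi n i x < ((⌊phi n i x⌋₊ : ℕ) : ℝ) + 1 := Nat.lt_floor_add_one _
    have hdel : 0 ≤ del i j x := by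
      unfold del
      have := pow_le_pow_right₀ hx1' hij.le
      linarith
    have f3 : ((h : ℕ) : ℝ) ≤ del i j x := by
      have := Nat.floor_le hdel
      rw [hd] at this
      exact this
    have f4 : del i j x < (h : ℝ) + 1 := by
      have := Nat.lt_floor_add_one (del i j x)
      rw [hd] at this
      exact this
    have hsum : phi n j x = phi n i x + del i j x := by
      unfold phi del
      ring
    have hI : ⌊phi n i x⌋₊ ∈ Finset.Ioc M (M + N) := by
      rw [Finset.mem_Ioc]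
      constructor
      · have : (M : ℝ) < (⌊phi n i x⌋₊ : ℕ) := by
          rw [hMr]
          linarith
        exact_mod_cast this
      · have h1 : ((⌊phi n i x⌋₊ : ℕ) : ℝ) < ((M + N + 1 : ℕ) : ℝ) := by
          push_cast
          rw [hMr, hN]
          push_cast
          linarith
        have h2 : ⌊phi n i x⌋₊ < M + N + 1 := by exact_mod_cast h1
        omega
    refine Set.mem_iUnion₂.2 ⟨⌊phi n i x⌋₊, ?_, hx, rfl⟩
    rw [Finset.mem_union, hP₁, hP₂, Finset.mem_filter, Finset.mem_filter]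
    have hcase : ⌊phi n j x⌋₊ = ⌊phi n i x⌋₊ + h ∨ ⌊phi n j x⌋₊ = ⌊phi n i x⌋₊ + (h + 1) := by
      have h1 : ⌊phi n i x⌋₊ + h ≤ ⌊phi n j x⌋₊ := by
        refine Nat.le_floor ?_
        push_cast
        rw [hsum]
        linarith
      have h2 : ⌊phi n j x⌋₊ < ⌊phi n i x⌋₊ + h + 2 := by
        rw [Nat.floor_lt (by rw [hsum]; linarith)]
        push_cast
        rw [hsum]
        linarith
      omega
    rcases hcase with h1 | h1
    · left
      exact ⟨hI, hp, h1 ▸ hq⟩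
    · right
      exact ⟨hI, hp, h1 ▸ hq⟩
  -- one value
  have hval : ∀ p ∈ P₁ ∪ P₂, volume (Z ∩ {x : ℝ | ⌊phi n i x⌋₊ = p}) ≤
      ENNReal.ofReal (6 * B / (n * x0 ^ n)) := by
    intro p _
    refine (Real.volume_le_diam _).trans ?_
    refine Metric.ediam_le fun x hx z hz => ?_
    have aux : ∀ x z : ℝ, x ∈ Z ∩ {x : ℝ | ⌊phi n i x⌋₊ = p} → z ∈ Z ∩ {x : ℝ | ⌊phi n i x⌋₊ = p} → x ≤ z →
        z - x ≤ 6 * B / (n * x0 ^ n) := by
      intro x z hx hz hxz
      obtain ⟨⟨hxA, hxB⟩, -, -, hd⟩ := hmem x hx.1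
      obtain ⟨⟨hzA, hzB⟩, -, -, -⟩ := hmem z hz.1
      have hx1' : 1 ≤ x := by linarith
      obtain ⟨g1, g2⟩ := near hA hAB hbig hi4 hij hj2 hA0 hB0 hxA hxB hd0 hd
      have h1 := le_phi_sub (n := n) (i := i) (by linarith : (0 : ℝ) ≤ x) hxz
      have h2 : phi n i z - phi n i x ≤ 1 := by
        have hz1 := Nat.lt_floor_add_one (phi n i z)
        have hx2 := Nat.floor_le (by linarith [phi_pos n i (by linarith : (0 : ℝ) ≤ x)] : 0 ≤ phi n i x)
        have e1 : ⌊phi n i z⌋₊ = p := hz.2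
        have e2 : ⌊phi n i x⌋₊ = p := hx.2
        rw [e1] at hz1
        rw [e2] at hx2
        linarith
      have h3 : x0 ^ n ≤ 6 * x ^ n := by
        have h4 := phi_le hin hx1'
        linarith
      have h4 : x * (phi n i z - phi n i x) ≤ B * 1 := by
        have : 0 ≤ phi n i z - phi n i x := by
          have := phi_mono n i (by linarith : (0 : ℝ) ≤ x) hxz
          linarith
        exact mul_le_mul hxB h2 this hBp.le
      rw [le_div_iff₀ (by positivity)]
      have h5 : 0 ≤ (z - x) * n := by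
        have : 0 ≤ z - x := by linarith
        positivity
      calc (z - x) * (n * x0 ^ n) = ((z - x) * n) * x0 ^ n := by ring
        _ ≤ ((z - x) * n) * (6 * x ^ n) := mul_le_mul_of_nonneg_left h3 h5
        _ = 6 * (n * x ^ n * (z - x)) := by ring
        _ ≤ 6 * B := by linarith
    rw [edist_dist, Real.dist_eq]
    refine ENNReal.ofReal_le_ofReal ?_
    rcases le_total x z with hxz | hxz
    · rw [abs_sub_comm, abs_of_nonneg (by linarith)]
      exact aux x z hx hz hxz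
    · rw [abs_of_nonneg (by linarith)]
      exact aux z x hz hx hxz
  -- end
  have hh0 : (0 : ℝ) < h := by exact_mod_cast hh
  have hxjh : (h : ℝ) ≤ x0 ^ j := by
    have h1 : ((⌊del i j x0⌋₊ : ℕ) : ℝ) ≤ del i j x0 := by
      refine Nat.floor_le ?_
      unfold del
      have := pow_le_pow_right₀ hx1 hij.le
      linarith
    rw [hd0] at h1
    have h2 : del i j x0 ≤ x0 ^ j := by
      unfold del
      have : 0 ≤ x0 ^ i := by positivity
      linarith
    linarith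
  calc volume Z ≤ volume (⋃ p ∈ P₁ ∪ P₂, Z ∩ {x : ℝ | ⌊phi n i x⌋₊ = p}) := measure_mono hcov
    _ ≤ ∑ p ∈ P₁ ∪ P₂, volume (Z ∩ {x : ℝ | ⌊phi n i x⌋₊ = p}) := measure_biUnion_finset_le _ _
    _ ≤ ∑ _p ∈ P₁ ∪ P₂, ENNReal.ofReal (6 * B / (n * x0 ^ n)) := Finset.sum_le_sum hval
    _ = ENNReal.ofReal (((P₁ ∪ P₂).card : ℝ) * (6 * B / (n * x0 ^ n))) := by
        rw [Finset.sum_const, nsmul_eq_mul, ENNReal.ofReal_mul (Nat.cast_nonneg _), ENNReal.ofReal_natCast]
    _ ≤ _ := by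
        refine ENNReal.ofReal_le_ofReal ?_
        have hwt := wt_nonneg h
        have hxj0 : 0 < x0 ^ j := by positivity
        calc ((P₁ ∪ P₂).card : ℝ) * (6 * B / (n * x0 ^ n))
            ≤ (48 * KK A B / κ ^ 2 + 2) * (wt h * X / n ^ 2) * (6 * B / (n * x0 ^ n)) := by
              refine mul_le_mul_of_nonneg_right hcard ?_
              positivity
          _ = CC A B / n ^ 3 * (wt h / x0 ^ j) := by
              rw [hfac]
              unfold CC
              rw [← hκ]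
              have hX0 : X ≠ 0 := by positivity
              field_simp
          _ ≤ CC A B / n ^ 3 * (wt h / h) := by
              have := CC_pos hA hAB
              refine mul_le_mul_of_nonneg_left ?_ (by positivity)
              exact div_le_div_of_nonneg_left hwt hh0 hxjh

end TOB
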