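import Mathlib
import Pool.Agent.SMD.DenL
import Pool.Agent.TOB.Pair

/-!
# TOB.Main: for almost every base `α > 1` the numbers `⌊α ^ n + α ^ i + 1⌋` are prime for a positive upper density of the `n`
-/

set_option autoImplicit false

namespace TOB

open MeasureTheory Filter

theorem pair {A B : ℝ} (hA : 1 < A) (hAB : A ≤ B) : ∃ C : ℝ, 0 < C ∧ ∀ a b : ℝ, A ≤ a → a < b → b ≤ B →
    ∀ᶠ n : ℕ in atTop, ∀ i j : ℕ, n / 4 ≤ i → i < j → j ≤ n / 2 →
      volume (EE n i ∩ EE n j ∩ Set.Ico a b) ≤ ENNReal.ofReal (C * (b - a) / n ^ 2) := by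
  obtain ⟨K, hK, hS⟩ := sum_wt
  have hCC := CC_pos hA hAB
  have hA1 : 0 < A - 1 := by linarith
  refine ⟨2 * CC A B * K, by positivity, fun a b ha hab hb => ?_⟩
  have ev : ∀ᶠ n : ℕ in atTop, 1 + Real.log (2 * A / (A - 1)) ≤ n * (b - a) :=
    ((tendsto_natCast_atTop_atTop (R := ℝ)).atTop_mul_const (by linarith)).eventually_ge_atTop _
  filter_upwards [ev, big_ev hA B] with n h1 hbig i j hi4 hij hj2
  have hn8 := hbig.n8
  have hn0 : (0 : ℝ) < n := by exact_mod_cast (by omega : 0 < n)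
  have ha0 : 0 < a := by linarith
  have ha1 : 1 ≤ a := by linarith
  have hb0 : 0 < b := by linarith
  have hBp : 1 < B := by linarith
  set H0 : ℕ := ⌊del i j a⌋₊ with hH0
  set H1 : ℕ := ⌊del i j b⌋₊ with hH1
  have hlow : (A - 1) * a ^ j ≤ A * del i j a := by
    unfold del
    have h2 : A * a ^ i ≤ a ^ j := by
      calc A * a ^ i ≤ a * a ^ i := by gcongr
        _ = a ^ (i + 1) := by ring
        _ ≤ a ^ j := pow_le_pow_right₀ ha1 (by omega)
    linarith
  have haj : 8 * (A / (A - 1)) * B ≤ a ^ j := by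
    have h2 := hbig.four
    have h3 : A ^ (n / 4) ≤ A ^ j := pow_le_pow_right₀ hA.le (by omega)
    have h4 : A ^ j ≤ a ^ j := pow_le_pow_left₀ (by linarith) ha j
    have h5 := one_le_KK hA hAB
    linarith
  have hdel8 : 8 ≤ del i j a := by
    have h2 : (A - 1) * (8 * (A / (A - 1)) * B) ≤ A * del i j a :=
      (mul_le_mul_of_nonneg_left haj hA1.le).trans hlow
    have h3 : (A - 1) * (8 * (A / (A - 1)) * B) = A * (8 * B) := by field_simp
    rw [h3] at h2
    have h4 := le_of_mul_le_mul_left h2 (by linarith : (0 : ℝ) < A)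
    linarith
  have hH01 : 1 ≤ H0 := Nat.le_floor (by push_cast; linarith)
  have hH0r : del i j a / 2 ≤ H0 := by
    have := Nat.lt_floor_add_one (del i j a)
    linarith
  have hdelab : del i j a ≤ del i j b := del_mono hij.le ha1 hab.le
  have hHH : H0 ≤ H1 := Nat.floor_le_floor hdelab
  have hH0p : (0 : ℝ) < H0 := by exact_mod_cast (by omega : 0 < H0)
  have hH1p : (0 : ℝ) < H1 := by exact_mod_cast (by omega : 0 < H1)
  have hH1r : (H1 : ℝ) ≤ b ^ j := by
    have h2 : (H1 : ℝ) ≤ del i j b := Nat.floor_le (by linarith)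
    have h3 : del i j b ≤ b ^ j := by
      unfold del
      have : 0 ≤ b ^ i := by positivity
      linarith
    linarith
  have haj0 : 0 < a ^ j := by positivity
  have hratio : (H1 : ℝ) / H0 ≤ 2 * A / (A - 1) * (b / a) ^ j := by
    have h2 : (A - 1) * a ^ j ≤ 2 * A * H0 := by
      have : A * del i j a ≤ A * (2 * H0) := mul_le_mul_of_nonneg_left (by linarith) (by linarith)
      linarith
    rw [div_pow, div_mul_div_comm, div_le_div_iff₀ hH0p (by positivity)]
    have hbj : 0 < b ^ j := by positivity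
    calc (H1 : ℝ) * ((A - 1) * a ^ j) ≤ b ^ j * ((A - 1) * a ^ j) := by gcongr
      _ ≤ b ^ j * (2 * A * H0) := mul_le_mul_of_nonneg_left h2 hbj.le
      _ = _ := by ring
  have hlog : Real.log ((H1 : ℝ) / H0) ≤ Real.log (2 * A / (A - 1)) + n * (b - a) := by
    have hba : 0 < b / a := by positivity
    have h2 := Real.log_le_log (by positivity) hratio
    rw [Real.log_mul (by positivity) (by positivity), Real.log_pow] at h2
    have h3 : Real.log (b / a) ≤ b - a := by
      have h4 := Real.log_le_sub_one_of_pos hba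
      have h5 : b / a - 1 = (b - a) / a := by field_simp
      rw [h5] at h4
      exact h4.trans (div_le_self (by linarith) ha1)
    have h4 : 0 ≤ Real.log (b / a) := Real.log_nonneg (by rw [one_le_div ha0]; exact hab.le)
    have h5 : (j : ℝ) ≤ n := by exact_mod_cast (by omega : j ≤ n)
    have h6 : (j : ℝ) * Real.log (b / a) ≤ n * (b - a) := mul_le_mul h5 h3 h4 hn0.le
    linarith
  have hab1 := abel wt_nonneg hS hH01 hHH
  have hcov : EE n i ∩ EE n j ∩ Set.Ico a b ⊆
      ⋃ h ∈ Finset.Icc H0 H1, (EE n i ∩ EE n j ∩ Set.Ico a b) ∩ {x : ℝ | ⌊del i j x⌋₊ = h} := by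
    intro x hx
    refine Set.mem_iUnion₂.2 ⟨⌊del i j x⌋₊, ?_, hx, rfl⟩
    rw [Finset.mem_Icc]
    exact ⟨Nat.floor_le_floor (del_mono hij.le ha1 hx.2.1),
      Nat.floor_le_floor (del_mono hij.le (ha1.trans hx.2.1) hx.2.2.le)⟩
  calc volume (EE n i ∩ EE n j ∩ Set.Ico a b)
      ≤ volume (⋃ h ∈ Finset.Icc H0 H1, (EE n i ∩ EE n j ∩ Set.Ico a b) ∩ {x : ℝ | ⌊del i j x⌋₊ = h}) :=
        measure_mono hcov
    _ ≤ ∑ h ∈ Finset.Icc H0 H1, volume ((EE n i ∩ EE n j ∩ Set.Ico a b) ∩ {x : ℝ | ⌊del i j x⌋₊ = h}) :=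
        measure_biUnion_finset_le _ _
    _ ≤ ∑ h ∈ Finset.Icc H0 H1, ENNReal.ofReal (CC A B / n ^ 3 * (wt h / h)) := by
        refine Finset.sum_le_sum fun h hh => ?_
        rw [Finset.mem_Icc] at hh
        exact cell hA hAB hbig hi4 hij hj2 (by omega) ha hb
    _ = ENNReal.ofReal (CC A B / n ^ 3 * ∑ h ∈ Finset.Icc H0 H1, wt h / h) := by
        rw [Finset.mul_sum, ENNReal.ofReal_sum_of_nonneg]
        intro h _
        have := wt_nonneg h
        positivity
    _ ≤ _ := by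
        refine ENNReal.ofReal_le_ofReal ?_
        have h2 : ∑ h ∈ Finset.Icc H0 H1, wt h / h ≤ K * (2 * (n * (b - a))) := by
          refine hab1.trans ?_
          refine mul_le_mul_of_nonneg_left ?_ hK.le
          linarith
        calc CC A B / n ^ 3 * ∑ h ∈ Finset.Icc H0 H1, wt h / h
            ≤ CC A B / n ^ 3 * (K * (2 * (n * (b - a)))) := mul_le_mul_of_nonneg_left h2 (by positivity)
          _ = 2 * CC A B * K * (b - a) / n ^ 2 := by
              field_simp

/-- the inequality of Bonferroni -/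
lemma bonf {E : ℕ → Set ℝ} (hE : ∀ k, MeasurableSet (E k)) (m : ℕ) :
    ∑ k ∈ Finset.range m, volume (E k) ≤ volume (⋃ k ∈ Finset.range m, E k) +
      ∑ k ∈ Finset.range m, ∑ j ∈ Finset.range k, volume (E j ∩ E k) := by
  induction m with
  | zero => simp
  | succ m ih =>
    rw [Finset.sum_range_succ, Finset.sum_range_succ (fun k => ∑ j ∈ Finset.range k, volume (E j ∩ E k))]
    have h1 : (⋃ k ∈ Finset.range (m + 1), E k) = (⋃ k ∈ Finset.range m, E k) ∪ E m := by
      ext x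
      simp only [Set.mem_iUnion, Finset.mem_range, Set.mem_union, exists_prop]
      constructor
      · rintro ⟨k, hk, hx⟩
        rcases Nat.lt_succ_iff_lt_or_eq.1 hk with h | h
        · exact Or.inl ⟨k, h, hx⟩
        · exact Or.inr (h ▸ hx)
      · rintro (⟨k, hk, hx⟩ | hx)
        · exact ⟨k, by omega, hx⟩
        · exact ⟨m, by omega, hx⟩
    have h2 := measure_union_add_inter (μ := (volume : Measure ℝ)) (⋃ k ∈ Finset.range m, E k) (hE m)
    have h3 : volume ((⋃ k ∈ Finset.range m, E k) ∩ E m) ≤ ∑ j ∈ Finset.range m, volume (E j ∩ E m) := by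
      rw [Set.iUnion₂_inter]
      exact measure_biUnion_finset_le _ _
    rw [h1]
    calc ∑ k ∈ Finset.range m, volume (E k) + volume (E m)
        ≤ (volume (⋃ k ∈ Finset.range m, E k) +
          ∑ k ∈ Finset.range m, ∑ j ∈ Finset.range k, volume (E j ∩ E k)) + volume (E m) :=
          add_le_add_left ih _
      _ = (volume (⋃ k ∈ Finset.range m, E k) + volume (E m)) +
          ∑ k ∈ Finset.range m, ∑ j ∈ Finset.range k, volume (E j ∩ E k) := by ring
      _ = (volume ((⋃ k ∈ Finset.range m, E k) ∪ E m) + volume ((⋃ k ∈ Finset.range m, E k) ∩ E m)) +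
          ∑ k ∈ Finset.range m, ∑ j ∈ Finset.range k, volume (E j ∩ E k) := by rw [h2]
      _ ≤ (volume ((⋃ k ∈ Finset.range m, E k) ∪ E m) + ∑ j ∈ Finset.range m, volume (E j ∩ E m)) +
          ∑ k ∈ Finset.range m, ∑ j ∈ Finset.range k, volume (E j ∩ E k) := by gcongr
      _ = _ := by ring

/-- the set of the bases for which `n` is good -/
def GG (n : ℕ) : Set ℝ := {x | ∃ i : ℕ, 0 < i ∧ i < n ∧ (⌊x ^ n + x ^ i + 1⌋₊).Prime}

lemma GG_meas (n : ℕ) : MeasurableSet (GG n) := by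
  have e : GG n = ⋃ i : ℕ, ⋃ _ : 0 < i ∧ i < n, EE n i := by
    ext x
    simp only [Set.mem_iUnion, exists_prop]
    constructor
    · rintro ⟨i, h1, h2, h3⟩
      exact ⟨i, ⟨h1, h2⟩, h3⟩
    · rintro ⟨i, ⟨h1, h2⟩, h3⟩
      exact ⟨i, h1, h2, h3⟩
  rw [e]
  exact MeasurableSet.iUnion fun i => MeasurableSet.iUnion fun _ => EE_meas n i

theorem local_pos {A B : ℝ} (hA : 1 < A) (hAB : A ≤ B) : ∃ c : ℝ, 0 < c ∧ ∀ a b : ℝ, A ≤ a → a < b → b ≤ B →
    ∀ᶠ n : ℕ in atTop, ENNReal.ofReal (c * (b - a)) ≤ volume (GG n ∩ Set.Ico a b) := by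
  obtain ⟨c₁, hc₁, hlow⟩ := low hA hAB
  obtain ⟨C₂, hC₂, hpair⟩ := pair hA hAB
  set κ : ℝ := min (1 / 8) (c₁ / (2 * C₂)) with hκ
  have hκ0 : 0 < κ := lt_min (by norm_num) (by positivity)
  refine ⟨κ * c₁ / 4, by positivity, fun a b ha hab hb => ?_⟩
  have ev : ∀ᶠ n : ℕ in atTop, 2 ≤ n * κ :=
    ((tendsto_natCast_atTop_atTop (R := ℝ)).atTop_mul_const hκ0).eventually_ge_atTop _
  filter_upwards [hlow a b ha hab hb, hpair a b ha hab hb, ev, eventually_ge_atTop 8] with n h1 h2 h3 hn8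
  have hn0 : (0 : ℝ) < n := by exact_mod_cast (by omega : 0 < n)
  have hba : 0 < b - a := by linarith
  set m : ℕ := ⌊(n : ℝ) * κ⌋₊ with hm
  have hm1 : (m : ℝ) ≤ n * κ := Nat.floor_le (by positivity)
  have hm2 : (n : ℝ) * κ / 2 ≤ m := by
    have := Nat.lt_floor_add_one ((n : ℝ) * κ)
    linarith
  have hm8 : 8 * m ≤ n := by
    have h4 : κ ≤ 1 / 8 := min_le_left _ _
    have h5 : (8 : ℝ) * m ≤ n := by nlinarith
    exact_mod_cast h5
  let E : ℕ → Set ℝ := fun k => EE n (n / 4 + k) ∩ Set.Ico a b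
  have hE : ∀ k, MeasurableSet (E k) := fun k => (EE_meas n _).inter measurableSet_Ico
  have hb1 := bonf hE m
  have hU : (⋃ k ∈ Finset.range m, E k) ⊆ GG n ∩ Set.Ico a b := by
    refine Set.iUnion₂_subset fun k hk => ?_
    intro x hx
    rw [Finset.mem_range] at hk
    exact ⟨⟨n / 4 + k, by omega, by omega, hx.1⟩, hx.2⟩
  have hs1 : ENNReal.ofReal (m * (c₁ * (b - a) / n)) ≤ ∑ k ∈ Finset.range m, volume (E k) := by
    rw [ENNReal.ofReal_mul (Nat.cast_nonneg m), ENNReal.ofReal_natCast]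
    calc (m : ENNReal) * ENNReal.ofReal (c₁ * (b - a) / n)
        = ∑ _k ∈ Finset.range m, ENNReal.ofReal (c₁ * (b - a) / n) := by
          rw [Finset.sum_const, Finset.card_range, nsmul_eq_mul]
      _ ≤ _ := by
          refine Finset.sum_le_sum fun k hk => ?_
          rw [Finset.mem_range] at hk
          exact h1 (n / 4 + k) (by omega)
  have hs2 : ∑ k ∈ Finset.range m, ∑ j ∈ Finset.range k, volume (E j ∩ E k) ≤
      ENNReal.ofReal (m * (m * (C₂ * (b - a) / n ^ 2))) := by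
    have h4 : ∀ k ∈ Finset.range m, ∑ j ∈ Finset.range k, volume (E j ∩ E k) ≤
        ENNReal.ofReal (m * (C₂ * (b - a) / n ^ 2)) := by
      intro k hk
      rw [Finset.mem_range] at hk
      calc ∑ j ∈ Finset.range k, volume (E j ∩ E k)
          ≤ ∑ _j ∈ Finset.range k, ENNReal.ofReal (C₂ * (b - a) / n ^ 2) := by
            refine Finset.sum_le_sum fun j hj => ?_
            rw [Finset.mem_range] at hj
            refine (measure_mono ?_).trans (h2 (n / 4 + j) (n / 4 + k) (by omega) (by omega) (by omega))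
            intro x hx
            exact ⟨⟨hx.1.1, hx.2.1⟩, hx.1.2⟩
        _ = k * ENNReal.ofReal (C₂ * (b - a) / n ^ 2) := by
            rw [Finset.sum_const, Finset.card_range, nsmul_eq_mul]
        _ ≤ m * ENNReal.ofReal (C₂ * (b - a) / n ^ 2) := by
            gcongr
        _ = _ := by rw [ENNReal.ofReal_mul (Nat.cast_nonneg m), ENNReal.ofReal_natCast]
    calc ∑ k ∈ Finset.range m, ∑ j ∈ Finset.range k, volume (E j ∩ E k)
        ≤ ∑ _k ∈ Finset.range m, ENNReal.ofReal (m * (C₂ * (b - a) / n ^ 2)) := Finset.sum_le_sum h4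
      _ = m * ENNReal.ofReal (m * (C₂ * (b - a) / n ^ 2)) := by
          rw [Finset.sum_const, Finset.card_range, nsmul_eq_mul]
      _ = _ := by
          rw [← ENNReal.ofReal_natCast, ← ENNReal.ofReal_mul (Nat.cast_nonneg m)]
  have hfin : volume (GG n ∩ Set.Ico a b) ≠ ⊤ := by
    refine ne_top_of_le_ne_top ?_ (measure_mono Set.inter_subset_right)
    rw [Real.volume_Ico]
    exact ENNReal.ofReal_ne_top
  set V : ℝ := (volume (GG n ∩ Set.Ico a b)).toReal with hV
  have hV0 : 0 ≤ V := ENNReal.toReal_nonneg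
  have hmain : (m : ℝ) * (c₁ * (b - a) / n) ≤ V + m * (m * (C₂ * (b - a) / n ^ 2)) := by
    have h5 := hs1.trans (hb1.trans (add_le_add (measure_mono hU) hs2))
    rw [← ENNReal.ofReal_toReal hfin, ← hV, ← ENNReal.ofReal_add hV0 (by positivity)] at h5
    exact (ENNReal.ofReal_le_ofReal_iff (by positivity)).1 h5
  rw [← ENNReal.ofReal_toReal hfin, ← hV]
  refine ENNReal.ofReal_le_ofReal ?_
  obtain ⟨t, ht⟩ : ∃ t : ℝ, t = (m : ℝ) / n := ⟨_, rfl⟩
  have ht1 : t ≤ κ := by
    rw [ht, div_le_iff₀ hn0]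
    linarith
  have ht2 : κ / 2 ≤ t := by
    rw [ht, le_div_iff₀ hn0]
    linarith
  have hκC : κ * C₂ ≤ c₁ / 2 := by
    have h4 : κ ≤ c₁ / (2 * C₂) := min_le_right _ _
    calc κ * C₂ ≤ c₁ / (2 * C₂) * C₂ := by gcongr
      _ = c₁ / 2 := by field_simp
  have e1 : (m : ℝ) * (c₁ * (b - a) / n) = t * c₁ * (b - a) := by rw [ht]; ring
  have e2 : (m : ℝ) * (m * (C₂ * (b - a) / n ^ 2)) = t ^ 2 * C₂ * (b - a) := by rw [ht]; ring
  rw [e1, e2] at hmain
  have ht0 : 0 ≤ t := by linarith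
  have h6 : t * C₂ ≤ c₁ / 2 := by nlinarith
  have h7 : κ * c₁ / 4 ≤ t * c₁ - t ^ 2 * C₂ := by
    have h8 : t * (t * C₂) ≤ t * (c₁ / 2) := mul_le_mul_of_nonneg_left h6 ht0
    nlinarith
  have h8 := mul_le_mul_of_nonneg_right h7 hba.le
  linarith

/-- the theorem -/
theorem metric_base (A B : ℝ) (hA : 1 < A) : ∃ c : ℝ, 0 < c ∧ ∀ᵐ α : ℝ, A ≤ α → α ≤ B → ∃ᶠ N : ℕ in atTop,
    c * N ≤ (Nat.card {n : ℕ // n < N ∧ ∃ i : ℕ, 0 < i ∧ i < n ∧ (⌊α ^ n + α ^ i + 1⌋₊).Prime} : ℝ) := by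
  classical
  rcases lt_or_ge B A with hBA | hAB
  · refine ⟨1, one_pos, Filter.Eventually.of_forall fun α h1 h2 => ?_⟩
    linarith
  obtain ⟨c, hc, H⟩ := local_pos (A := A) (B := B + 1) hA (by linarith)
  have h1 := SMD.dens_ae GG_meas (A := A) (B := B) hc one_pos (by
    intro μ ρ h1 h2 h3 h4
    filter_upwards [H μ (μ + ρ) h1 (by linarith) (by linarith)] with n hn
    rw [add_sub_cancel_left] at hn
    refine hn.trans (measure_mono ?_)
    refine Set.inter_subset_inter_right _ ?_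
    intro x hx
    rw [Metric.mem_closedBall, Real.dist_eq, abs_le]
    constructor <;> linarith [hx.1, hx.2])
  refine ⟨c / 8, by positivity, ?_⟩
  filter_upwards [h1] with α hα h2 h3
  refine (hα h2 h3).mono fun N hN => ?_
  refine hN.trans (le_of_eq ?_)
  congr 1
  refine (Nat.subtype_card _ fun n => ?_).symm
  rw [Finset.mem_filter, Finset.mem_range]
  exact Iff.rfl

end TOB
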