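import Mathlib
import Pool.Agent.SWP.MertP

/-!
# TOB.Mert: the sum of `1 / p` over `e ^ u < p ≤ e ^ v` is at most `(1 + ε) (v - u) / u`
-/

set_option autoImplicit false

namespace TOB

open Finset Pool.MRZ Pool.SWP

/-- a short block -/
lemma block_up (K : ℕ) (hK : 1 ≤ K) (δ : ℝ) (hδ : 0 < δ) : ∃ u₀ : ℕ, ∀ w : ℕ, u₀ ≤ w →
    ∑ q ∈ PV K w, (1 : ℝ) / q ≤
      ((1 + δ) * Real.exp (1 / K) - (1 - δ)) * (K / w) := by
  have h := Pool.Agent.Lib.PNT.theta
  rw [Metric.tendsto_atTop] at h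
  obtain ⟨x₀, hx₀⟩ := h δ hδ
  have hK0 : (0 : ℝ) < K := by exact_mod_cast hK
  refine ⟨K * ⌈x₀⌉₊ + 1, fun w hw => ?_⟩
  have hw0 : (0 : ℝ) < w := by exact_mod_cast (by omega : 0 < w)
  have hxw : x₀ ≤ (w : ℝ) / K := by
    rw [le_div_iff₀ hK0]
    have h1 : x₀ ≤ (⌈x₀⌉₊ : ℝ) := Nat.le_ceil x₀
    have h2 : (K : ℝ) * ⌈x₀⌉₊ + 1 ≤ w := by exact_mod_cast hw
    nlinarith
  set s : ℝ := (w : ℝ) / K with hs
  have hs0 : 0 < s := by positivity
  have hxj : x₀ ≤ Real.exp s := by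
    have h2 := Real.add_one_le_exp s
    linarith
  have hejj : Real.exp (s + 1 / K) = Real.exp s * Real.exp (1 / K) := Real.exp_add _ _
  have hE : 0 < Real.exp s := Real.exp_pos _
  have hE' : 0 < Real.exp (s + 1 / K) := Real.exp_pos _
  have hxj' : x₀ ≤ Real.exp (s + 1 / K) := by
    refine hxj.trans (Real.exp_le_exp.mpr ?_)
    have : 0 < 1 / (K : ℝ) := by positivity
    linarith
  have e1 := hx₀ _ hxj
  have e2 := hx₀ _ hxj'
  rw [Real.dist_eq, abs_lt] at e1 e2
  have t1 : (1 - δ) * Real.exp s ≤ Chebyshev.theta (Real.exp s) := by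
    have : 1 - δ ≤ Chebyshev.theta (Real.exp s) / Real.exp s := by linarith [e1.1]
    rwa [le_div_iff₀ hE] at this
  have t2 : Chebyshev.theta (Real.exp (s + 1 / K)) ≤ (1 + δ) * Real.exp (s + 1 / K) := by
    have : Chebyshev.theta (Real.exp (s + 1 / K)) / Real.exp (s + 1 / K) ≤ 1 + δ := by linarith [e2.2]
    rwa [div_le_iff₀ hE'] at this
  have hsw : ((w : ℝ) + 1) / K = s + 1 / K := by rw [hs]; ring
  have hle : ⌊Real.exp s⌋₊ ≤ ⌊Real.exp (s + 1 / K)⌋₊ := by
    refine Nat.floor_le_floor (Real.exp_le_exp.mpr ?_)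
    have : 0 < 1 / (K : ℝ) := by positivity
    linarith
  have hPV : PV K w = (Ioc ⌊Real.exp s⌋₊ ⌊Real.exp (s + 1 / K)⌋₊).filter Nat.Prime := by
    unfold PV
    rw [hsw]
  have hsum : ∑ q ∈ PV K w, Real.log q =
      Chebyshev.theta (Real.exp (s + 1 / K)) - Chebyshev.theta (Real.exp s) := by
    rw [Chebyshev.theta, Chebyshev.theta, hPV]
    rw [Finset.sum_filter, Finset.sum_filter, Finset.sum_filter]
    have := Finset.sum_Ioc_consecutive (fun p : ℕ => if p.Prime then Real.log p else 0)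
      (Nat.zero_le ⌊Real.exp s⌋₊) hle
    rw [← this]
    ring
  have hup : ∑ q ∈ PV K w, (1 : ℝ) / q ≤ (∑ q ∈ PV K w, Real.log q) / (Real.exp s * s) := by
    rw [Finset.sum_div]
    refine Finset.sum_le_sum fun q hq => ?_
    rw [hPV, Finset.mem_filter, Finset.mem_Ioc] at hq
    have hq0 : (0 : ℝ) < q := by exact_mod_cast hq.2.pos
    have hq1 : Real.exp s < q := Nat.lt_of_floor_lt hq.1.1
    have hq2 : s ≤ Real.log q := by
      have := Real.log_le_log hE hq1.le
      rwa [Real.log_exp] at this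
    rw [div_le_div_iff₀ hq0 (by positivity)]
    have := mul_le_mul hq1.le hq2 hs0.le hq0.le
    linarith
  refine hup.trans ?_
  rw [hsum]
  have h3 : Chebyshev.theta (Real.exp (s + 1 / K)) - Chebyshev.theta (Real.exp s) ≤
      ((1 + δ) * Real.exp (1 / K) - (1 - δ)) * Real.exp s := by
    have h5 : (1 + δ) * Real.exp (s + 1 / K) = (1 + δ) * Real.exp (1 / K) * Real.exp s := by
      rw [hejj]; ring
    rw [h5] at t2
    linarith
  have h4 : (K : ℝ) / w = 1 / s := by rw [hs]; field_simp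
  rw [h4]
  calc (Chebyshev.theta (Real.exp (s + 1 / K)) - Chebyshev.theta (Real.exp s)) / (Real.exp s * s)
      ≤ (((1 + δ) * Real.exp (1 / K) - (1 - δ)) * Real.exp s) / (Real.exp s * s) :=
        div_le_div_of_nonneg_right h3 (by positivity)
    _ = _ := by field_simp

lemma RS_up (ε : ℝ) (hε : 0 < ε) : ∃ u₀ : ℕ, ∀ u v : ℕ, u₀ ≤ u → u ≤ v →
    RS u v ≤ (1 + ε) * (((v : ℝ) - u) / u) := by
  obtain ⟨K, hK1⟩ := exists_nat_ge (2 / ε + 1)
  have hKr : 1 ≤ (K : ℝ) := by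
    have : 0 < 2 / ε := by positivity
    linarith
  have hK : 1 ≤ K := by exact_mod_cast hKr
  have hK0 : (0 : ℝ) < K := by linarith
  set δ : ℝ := ε / (8 * K) with hδ
  have hδ0 : 0 < δ := by positivity
  obtain ⟨w₀, hw₀⟩ := block_up K hK δ hδ0
  refine ⟨max w₀ 1, fun u v hu huv => ?_⟩
  have hu1 : w₀ ≤ u := (le_max_left _ _).trans hu
  have hu2 : 1 ≤ u := (le_max_right _ _).trans hu
  have hu0 : (0 : ℝ) < u := by exact_mod_cast hu2
  have huv' : (u : ℝ) ≤ v := by exact_mod_cast huv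
  -- the constant
  have hc : (1 + δ) * Real.exp (1 / K) - (1 - δ) ≤ (1 + ε) / K := by
    have h1 : Real.exp (1 / (K : ℝ)) ≤ 1 + 1 / K + (1 / K) ^ 2 := by
      have h2 : |1 / (K : ℝ)| ≤ 1 := by
        rw [abs_of_pos (by positivity)]
        rw [div_le_one hK0]
        exact hKr
      have h3 := Real.abs_exp_sub_one_sub_id_le h2
      rw [abs_le] at h3
      linarith [h3.2]
    have h2 : (1 / (K : ℝ)) ^ 2 ≤ ε / 2 * (1 / K) := by
      rw [sq]
      refine mul_le_mul_of_nonneg_right ?_ (by positivity)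
      rw [div_le_iff₀ hK0]
      have : 2 / ε ≤ K := by linarith
      rw [div_le_iff₀ hε] at this
      linarith
    have h3 : Real.exp (1 / (K : ℝ)) ≤ 3 := by
      have h4 : 1 / (K : ℝ) ≤ 1 := by rw [div_le_one hK0]; exact hKr
      have h5 := Real.exp_le_exp.2 h4
      have := Real.exp_one_lt_d9
      linarith
    have h4 : δ * (Real.exp (1 / K) + 1) ≤ ε / 2 * (1 / K) := by
      have h5 : δ * (Real.exp (1 / K) + 1) ≤ δ * 4 := mul_le_mul_of_nonneg_left (by linarith) hδ0.le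
      have h6 : δ * 4 = ε / 2 * (1 / K) := by rw [hδ]; field_simp; ring
      linarith
    have h5 : (1 + ε) / K = 1 / (K : ℝ) + ε / 2 * (1 / K) + ε / 2 * (1 / K) := by ring
    rw [h5]
    nlinarith
  unfold RS
  rw [QQ_blocks K u v hK huv]
  calc ∑ w ∈ Ico (K * u) (K * v), ∑ q ∈ PV K w, (1 : ℝ) / q
      ≤ ∑ _w ∈ Ico (K * u) (K * v), (1 + ε) / K * (1 / u) := by
        refine Finset.sum_le_sum fun w hw => ?_
        rw [Finset.mem_Ico] at hw
        have h1 : u ≤ K * u := Nat.le_mul_of_pos_left u hK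
        have h2 : (K : ℝ) * u ≤ w := by exact_mod_cast hw.1
        have h3 : (K : ℝ) / w ≤ 1 / u := by
          rw [div_le_div_iff₀ (by nlinarith) hu0]
          linarith
        refine (hw₀ w (by omega)).trans ?_
        have h4 : 0 ≤ (K : ℝ) / w := by positivity
        calc ((1 + δ) * Real.exp (1 / K) - (1 - δ)) * (K / w) ≤ (1 + ε) / K * (K / w) :=
              mul_le_mul_of_nonneg_right hc h4
          _ ≤ _ := mul_le_mul_of_nonneg_left h3 (by positivity)
    _ = (1 + ε) * (((v : ℝ) - u) / u) := by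
        rw [Finset.sum_const, Nat.card_Ico, nsmul_eq_mul, Nat.cast_sub (Nat.mul_le_mul_left K huv)]
        push_cast
        field_simp

end TOB
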