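import Mathlib
import Pool.Agent.TOB.Mert
import Pool.Agent.TOB.Main

/-!
# TOB.Up: rows without primes in almost every base `α > e`

The measure of the `x ∈ [a, b)` with `⌊x ^ n + x ^ i + 1⌋` prime is at most `(1 + o(1)) (b - a) / (n log a)` uniformly in `i < n`
(prime number theorem); the sum over `i` is less than `b - a` if `log a > 1`.
-/

set_option autoImplicit false

namespace TOB

open MeasureTheory Filter Pool.SWP

/-- points with the same value are close -/
lemma close {n i : ℕ} (hi : i < n) (hn : 3 ≤ n) {b : ℝ} {p : ℕ} (hp : 0 < p) {x y : ℝ}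
    (hx : 2 ≤ x) (hxy : x ≤ y) (hxb : x ≤ b) (h1 : ⌊phi n i x⌋₊ = p) (h2 : ⌊phi n i y⌋₊ = p) :
    y - x ≤ b / (((n : ℝ) - 2) * p) := by
  have hx0 : 0 ≤ x := by linarith
  have hn3 : (3 : ℝ) ≤ n := by exact_mod_cast hn
  have hp0 : (0 : ℝ) < p := by exact_mod_cast hp
  have hphi := phi_pos n i hx0
  have f1 := Nat.floor_le (by linarith : 0 ≤ phi n i x)
  have f2 := Nat.lt_floor_add_one (phi n i y)
  rw [h1] at f1
  rw [h2] at f2
  have g1 := le_pow_sub hx0 hxy n
  have g2 := le_pow_sub hx0 hxy i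
  have g3 : phi n i y - phi n i x = (y ^ n - x ^ n) + (y ^ i - x ^ i) := by
    unfold phi; ring
  have g4 : (n * x ^ n + i * x ^ i) * (y - x) ≤ b := by
    have h3 : x * (phi n i y - phi n i x) ≤ x * 1 := mul_le_mul_of_nonneg_left (by linarith) hx0
    rw [g3] at h3
    nlinarith
  have g5 : ((n : ℝ) - 2) * phi n i x ≤ n * x ^ n + i * x ^ i := by
    have hk : x ^ n = x ^ (n - i) * x ^ i := by rw [← pow_add]; congr 1; omega
    have h3 : ((n : ℝ) - i) * x ^ i ≤ x ^ n := by
      rw [hk]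
      have h4 : (n : ℝ) - i ≤ x ^ (n - i) := by
        have h5 : (n : ℝ) - i = ((n - i : ℕ) : ℝ) := by rw [Nat.cast_sub hi.le]
        rw [h5]
        calc ((n - i : ℕ) : ℝ) ≤ (2 : ℝ) ^ (n - i) := by exact_mod_cast (Nat.lt_two_pow_self (n := n - i)).le
          _ ≤ x ^ (n - i) := pow_le_pow_left₀ (by norm_num) hx _
      have : 0 ≤ x ^ i := by positivity
      exact mul_le_mul_of_nonneg_right h4 this
    have h4 : (n : ℝ) ≤ x ^ n := by
      calc (n : ℝ) ≤ (2 : ℝ) ^ n := by exact_mod_cast (Nat.lt_two_pow_self (n := n)).le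
        _ ≤ x ^ n := pow_le_pow_left₀ (by norm_num) hx _
    have h5 : 0 ≤ x ^ i := by positivity
    unfold phi
    nlinarith
  have hyx : 0 ≤ y - x := by linarith
  rw [le_div_iff₀ (by nlinarith)]
  have g6 : ((n : ℝ) - 2) * p ≤ n * x ^ n + i * x ^ i :=
    (mul_le_mul_of_nonneg_left f1 (by linarith)).trans g5
  have g7 := mul_le_mul_of_nonneg_right g6 hyx
  linarith

lemma up_meas {n i : ℕ} (hi : i < n) (hn : 3 ≤ n) {a b : ℝ} (ha : 2 ≤ a) {u v : ℕ}
    (hu : Real.exp u ≤ a ^ n) (hv : 3 * b ^ n ≤ Real.exp v) :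
    volume (EE n i ∩ Set.Ico a b) ≤ ENNReal.ofReal (b / ((n : ℝ) - 2) * RS u v) := by
  rcases le_or_gt b a with hba | hab
  · rw [Set.Ico_eq_empty (not_lt.2 hba), Set.inter_empty, measure_empty]
    exact zero_le
  have hn3 : (3 : ℝ) ≤ n := by exact_mod_cast hn
  have hb0 : 0 < b := by linarith
  have hcov : EE n i ∩ Set.Ico a b ⊆ ⋃ p ∈ QQ u v, (EE n i ∩ Set.Ico a b) ∩ {x : ℝ | ⌊phi n i x⌋₊ = p} := by
    intro x hx
    have hax := hx.2.1
    have hxb := hx.2.2
    have hxn : a ^ n ≤ x ^ n := pow_le_pow_left₀ (by linarith) hax n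
    have hbn : x ^ n ≤ b ^ n := pow_le_pow_left₀ (by linarith) hxb.le n
    refine Set.mem_iUnion₂.2 ⟨⌊phi n i x⌋₊, ?_, hx, rfl⟩
    unfold QQ
    rw [Finset.mem_filter, Finset.mem_Ioc]
    refine ⟨⟨?_, ?_⟩, hx.1⟩
    · refine Nat.lt_of_succ_le (Nat.le_floor ?_)
      rw [Nat.cast_succ]
      have h1 := Nat.floor_le (Real.exp_pos (u : ℝ)).le
      unfold phi
      have : 0 ≤ x ^ i := by
        have : 0 ≤ x := by linarith
        positivity
      linarith
    · refine Nat.floor_le_floor ?_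
      have := phi_le hi.le (by linarith : 1 ≤ x)
      linarith
  calc volume (EE n i ∩ Set.Ico a b)
      ≤ volume (⋃ p ∈ QQ u v, (EE n i ∩ Set.Ico a b) ∩ {x : ℝ | ⌊phi n i x⌋₊ = p}) := measure_mono hcov
    _ ≤ ∑ p ∈ QQ u v, volume ((EE n i ∩ Set.Ico a b) ∩ {x : ℝ | ⌊phi n i x⌋₊ = p}) :=
        measure_biUnion_finset_le _ _
    _ ≤ ∑ p ∈ QQ u v, ENNReal.ofReal (b / (((n : ℝ) - 2) * p)) := by
        refine Finset.sum_le_sum fun p hp => ?_
        unfold QQ at hp
        rw [Finset.mem_filter] at hp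
        have hp0 := hp.2.pos
        refine (Real.volume_le_diam _).trans ?_
        refine Metric.ediam_le fun x hx z hz => ?_
        have hx2 : 2 ≤ x := ha.trans hx.1.2.1
        have hz2 : 2 ≤ z := ha.trans hz.1.2.1
        rw [edist_dist, Real.dist_eq]
        refine ENNReal.ofReal_le_ofReal ?_
        rcases le_total x z with hxz | hxz
        · rw [abs_sub_comm, abs_of_nonneg (by linarith)]
          exact close hi hn hp0 hx2 hxz hx.1.2.2.le hx.2 hz.2
        · rw [abs_of_nonneg (by linarith)]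
          exact close hi hn hp0 hz2 hxz hz.1.2.2.le hz.2 hx.2
    _ = ENNReal.ofReal (b / ((n : ℝ) - 2) * RS u v) := by
        rw [← ENNReal.ofReal_sum_of_nonneg]
        · congr 1
          unfold RS
          rw [Finset.mul_sum]
          refine Finset.sum_congr rfl fun p hp => ?_
          unfold QQ at hp
          rw [Finset.mem_filter] at hp
          have hp0 : (0 : ℝ) < p := by exact_mod_cast hp.2.pos
          have : (n : ℝ) - 2 ≠ 0 := by linarith
          field_simp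
        · intro p _
          have : 0 ≤ ((n : ℝ) - 2) * p := mul_nonneg (by linarith) (Nat.cast_nonneg p)
          positivity

theorem up {ε : ℝ} (hε : 0 < ε) {a b : ℝ} (ha : 2 ≤ a) (hab : a < b) (hb : b ≤ (1 + ε) * a) :
    ∀ᶠ n : ℕ in atTop, ∀ i : ℕ, i < n →
      volume (EE n i ∩ Set.Ico a b) ≤ ENNReal.ofReal ((1 + ε) ^ 5 * (b - a) / (n * Real.log a)) := by
  obtain ⟨u₀, hu₀⟩ := RS_up ε hε
  have hla : 0 < Real.log a := Real.log_pos (by linarith)
  have hlb : 0 < Real.log b := Real.log_pos (by linarith)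
  have hba : 0 < b - a := by linarith
  have ha0 : 0 < a := by linarith
  have hb0 : 0 < b := by linarith
  have ev1 : ∀ᶠ n : ℕ in atTop, (u₀ : ℝ) + 1 ≤ n * Real.log a :=
    ((tendsto_natCast_atTop_atTop (R := ℝ)).atTop_mul_const hla).eventually_ge_atTop _
  have ev2 : ∀ᶠ n : ℕ in atTop, 4 ≤ n * (ε * ((b - a) / a)) :=
    ((tendsto_natCast_atTop_atTop (R := ℝ)).atTop_mul_const (by positivity)).eventually_ge_atTop _
  have ev3 : ∀ᶠ n : ℕ in atTop, (1 + ε) / ε ≤ n * Real.log a :=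
    ((tendsto_natCast_atTop_atTop (R := ℝ)).atTop_mul_const hla).eventually_ge_atTop _
  have ev4 : ∀ᶠ n : ℕ in atTop, 2 * (1 + ε) / ε ≤ (n : ℝ) :=
    (tendsto_natCast_atTop_atTop (R := ℝ)).eventually_ge_atTop _
  filter_upwards [ev1, ev2, ev3, ev4, eventually_ge_atTop 3] with n h1 h2 h3 h4 hn i hi
  have hn3 : (3 : ℝ) ≤ n := by exact_mod_cast hn
  have hn0 : (0 : ℝ) < n := by linarith
  set u : ℕ := ⌊(n : ℝ) * Real.log a⌋₊ with hu
  set v : ℕ := ⌈(n : ℝ) * Real.log b⌉₊ + 2 with hv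
  have hu1 : (u : ℝ) ≤ n * Real.log a := Nat.floor_le (by positivity)
  have hu2 : (n : ℝ) * Real.log a - 1 ≤ u := by
    have := Nat.lt_floor_add_one ((n : ℝ) * Real.log a)
    linarith
  have hv1 : (n : ℝ) * Real.log b + 2 ≤ v := by
    rw [hv]; push_cast
    have := Nat.le_ceil ((n : ℝ) * Real.log b)
    linarith
  have hv2 : (v : ℝ) ≤ n * Real.log b + 3 := by
    rw [hv]; push_cast
    have := Nat.ceil_lt_add_one (by positivity : 0 ≤ (n : ℝ) * Real.log b)
    linarith
  have hlab : Real.log a ≤ Real.log b := Real.log_le_log ha0 hab.le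
  have huv : u ≤ v := by
    have h5 := mul_le_mul_of_nonneg_left hlab hn0.le
    have : (u : ℝ) ≤ v := by linarith
    exact_mod_cast this
  have hu0 : u₀ ≤ u := by
    have : (u₀ : ℝ) ≤ u := by linarith
    exact_mod_cast this
  have heu : Real.exp u ≤ a ^ n := by
    calc Real.exp u ≤ Real.exp (n * Real.log a) := Real.exp_le_exp.2 hu1
      _ = _ := by rw [Real.exp_nat_mul, Real.exp_log ha0]
  have hev : 3 * b ^ n ≤ Real.exp v := by
    calc 3 * b ^ n ≤ Real.exp 2 * b ^ n := by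
          have h3 : (3 : ℝ) ≤ Real.exp 2 := by
            have := Real.add_one_le_exp (2 : ℝ)
            linarith
          have : 0 ≤ b ^ n := by positivity
          exact mul_le_mul_of_nonneg_right h3 this
      _ = Real.exp (n * Real.log b + 2) := by
          rw [Real.exp_add, Real.exp_nat_mul, Real.exp_log hb0]
          ring
      _ ≤ _ := Real.exp_le_exp.2 hv1
  refine (up_meas hi hn ha heu hev).trans (ENNReal.ofReal_le_ofReal ?_)
  have hRS := hu₀ u v hu0 huv
  have hlogd : Real.log b - Real.log a ≤ (b - a) / a := by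
    have h5 := Real.log_le_sub_one_of_pos (by positivity : 0 < b / a)
    rw [Real.log_div hb0.ne' ha0.ne'] at h5
    have h6 : b / a - 1 = (b - a) / a := by field_simp
    linarith
  have hvu : (v : ℝ) - u ≤ (1 + ε) * (n * ((b - a) / a)) := by
    have h5 := mul_le_mul_of_nonneg_left hlogd hn0.le
    nlinarith
  have hε1 : 0 < 1 + ε := by linarith
  have hula : (n : ℝ) * Real.log a / (1 + ε) ≤ u := by
    refine le_trans ?_ hu2
    rw [div_le_iff₀ hε1]
    rw [div_le_iff₀ hε] at h3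
    nlinarith
  have hn2 : (n : ℝ) / (1 + ε) ≤ n - 2 := by
    rw [div_le_iff₀ hε1]
    rw [div_le_iff₀ hε] at h4
    nlinarith
  have hn20 : 0 < (n : ℝ) / (1 + ε) := by positivity
  have hu00 : 0 < (n : ℝ) * Real.log a / (1 + ε) := by positivity
  have hvu0 : 0 ≤ (v : ℝ) - u := by
    have : (u : ℝ) ≤ v := by exact_mod_cast huv
    linarith
  have hRS0 : 0 ≤ RS u v := by
    unfold RS
    exact Finset.sum_nonneg fun q _ => by positivity
  calc b / ((n : ℝ) - 2) * RS u v
      ≤ b / ((n : ℝ) / (1 + ε)) * ((1 + ε) * (((v : ℝ) - u) / u)) := by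
        refine mul_le_mul ?_ hRS hRS0 (by positivity)
        exact div_le_div_of_nonneg_left hb0.le hn20 hn2
    _ ≤ b / ((n : ℝ) / (1 + ε)) * ((1 + ε) * ((1 + ε) * (n * ((b - a) / a)) / (n * Real.log a / (1 + ε)))) := by
        refine mul_le_mul_of_nonneg_left ?_ (by positivity)
        refine mul_le_mul_of_nonneg_left ?_ hε1.le
        exact div_le_div₀ (by positivity) hvu hu00 hula
    _ = b / a * ((1 + ε) ^ 4 * (b - a) / (n * Real.log a)) := by
        field_simp
    _ ≤ (1 + ε) * ((1 + ε) ^ 4 * (b - a) / (n * Real.log a)) := by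
        refine mul_le_mul_of_nonneg_right ?_ (by positivity)
        rw [div_le_iff₀ ha0]
        exact hb
    _ = _ := by ring

lemma five {ε : ℝ} (h0 : 0 ≤ ε) (h1 : ε ≤ 1) : (1 + ε) ^ 5 ≤ 1 + 31 * ε := by
  have e2 : ε ^ 2 ≤ ε := by nlinarith
  have e3 : ε ^ 3 ≤ ε := by nlinarith
  have e4 : ε ^ 4 ≤ ε := by nlinarith
  have e5 : ε ^ 5 ≤ ε := by nlinarith
  have e : (1 + ε) ^ 5 = 1 + 5 * ε + 10 * ε ^ 2 + 10 * ε ^ 3 + 5 * ε ^ 4 + ε ^ 5 := by ring
  rw [e]
  linarith

/-- rows without primes -/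
theorem metric_empty (A B : ℝ) (hA : Real.exp 1 < A) : ∃ c : ℝ, 0 < c ∧ ∀ᵐ α : ℝ, A ≤ α → α ≤ B →
    ∃ᶠ N : ℕ in atTop,
    c * N ≤ (Nat.card {n : ℕ // n < N ∧ ∀ i : ℕ, 0 < i → i < n → ¬ (⌊α ^ n + α ^ i + 1⌋₊).Prime} : ℝ) := by
  classical
  have hA2 : 2 ≤ A := by
    have := Real.exp_one_gt_d9
    linarith
  set l : ℝ := Real.log A with hl
  have hl1 : 1 < l := by
    rw [hl, Real.lt_log_iff_exp_lt (by linarith)]
    exact hA
  set ε : ℝ := min 1 ((l - 1) / 62) with hε
  have hε0 : 0 < ε := lt_min one_pos (by linarith)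
  have hε1 : ε ≤ 1 := min_le_left _ _
  have hε2 : 31 * ε ≤ (l - 1) / 2 := by
    have : ε ≤ (l - 1) / 62 := min_le_right _ _
    linarith
  have h5 : (1 + ε) ^ 5 ≤ (1 + l) / 2 := by
    have := five hε0.le hε1
    linarith
  have hc : 0 < (l - 1) / (2 * l) := by
    have : 0 < l - 1 := by linarith
    positivity
  have h1 := SMD.dens_ae (fun n => (GG_meas n).compl) (A := A) (B := B) hc hε0 (by
    intro μ ρ hμ1 hμ2 hρ0 hρ1
    have hb : μ + ρ ≤ (1 + ε) * μ := by nlinarith
    filter_upwards [up hε0 (by linarith : 2 ≤ μ) (by linarith : μ < μ + ρ) hb, eventually_gt_atTop 0] with n hn hn1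
    have hn0 : (0 : ℝ) < n := by exact_mod_cast hn1
    set J : Set ℝ := Set.Ico μ (μ + ρ) with hJ
    have hJv : volume J = ENNReal.ofReal ρ := by
      rw [hJ, Real.volume_Ico, add_sub_cancel_left]
    have hcov : J ⊆ ((GG n)ᶜ ∩ J) ∪ ⋃ i ∈ Finset.range n, EE n i ∩ J := by
      intro x hx
      by_cases hg : x ∈ GG n
      · right
        obtain ⟨i, h6, h7, h8⟩ := hg
        exact Set.mem_iUnion₂.2 ⟨i, Finset.mem_range.2 h7, h8, hx⟩
      · left
        exact ⟨hg, hx⟩
    have hfin : volume ((GG n)ᶜ ∩ J) ≠ ⊤ := by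
      refine ne_top_of_le_ne_top ?_ (measure_mono Set.inter_subset_right)
      rw [hJv]
      exact ENNReal.ofReal_ne_top
    set V : ℝ := (volume ((GG n)ᶜ ∩ J)).toReal with hV
    have hV0 : 0 ≤ V := ENNReal.toReal_nonneg
    have hlμ : l ≤ Real.log μ := Real.log_le_log (by linarith) hμ1
    have hlμ0 : 0 < Real.log μ := by linarith
    rw [add_sub_cancel_left] at hn
    have hmeas : ENNReal.ofReal ρ ≤ ENNReal.ofReal (V + n * ((1 + ε) ^ 5 * ρ / (n * Real.log μ))) := by
      calc ENNReal.ofReal ρ = volume J := hJv.symm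
        _ ≤ volume (((GG n)ᶜ ∩ J) ∪ ⋃ i ∈ Finset.range n, EE n i ∩ J) := measure_mono hcov
        _ ≤ volume ((GG n)ᶜ ∩ J) + volume (⋃ i ∈ Finset.range n, EE n i ∩ J) := measure_union_le _ _
        _ ≤ volume ((GG n)ᶜ ∩ J) + ∑ i ∈ Finset.range n, volume (EE n i ∩ J) := by
            gcongr
            exact measure_biUnion_finset_le _ _
        _ ≤ volume ((GG n)ᶜ ∩ J) + ∑ _i ∈ Finset.range n,
            ENNReal.ofReal ((1 + ε) ^ 5 * ρ / (n * Real.log μ)) := by
            gcongr with i hi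
            exact hn i (Finset.mem_range.1 hi)
        _ = _ := by
            rw [Finset.sum_const, Finset.card_range, nsmul_eq_mul, ENNReal.ofReal_add hV0 (by positivity),
              hV, ENNReal.ofReal_toReal hfin, ENNReal.ofReal_mul (Nat.cast_nonneg n), ENNReal.ofReal_natCast]
    have hreal := (ENNReal.ofReal_le_ofReal_iff (by positivity)).1 hmeas
    have h6 : (n : ℝ) * ((1 + ε) ^ 5 * ρ / (n * Real.log μ)) = (1 + ε) ^ 5 / Real.log μ * ρ := by
      field_simp
    have h7 : (1 + ε) ^ 5 / Real.log μ ≤ (1 + l) / (2 * l) := by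
      rw [div_le_div_iff₀ hlμ0 (by linarith)]
      have h8 : (1 + ε) ^ 5 * (2 * l) ≤ (1 + l) / 2 * (2 * l) :=
        mul_le_mul_of_nonneg_right h5 (by linarith)
      nlinarith
    have h8 := mul_le_mul_of_nonneg_right h7 hρ0.le
    have h9 : (l - 1) / (2 * l) = 1 - (1 + l) / (2 * l) := by
      have : l ≠ 0 := by linarith
      field_simp
      ring
    have h10 : (l - 1) / (2 * l) * ρ ≤ V := by
      rw [h9, sub_mul, one_mul]
      rw [h6] at hreal
      linarith
    calc ENNReal.ofReal ((l - 1) / (2 * l) * ρ) ≤ ENNReal.ofReal V := ENNReal.ofReal_le_ofReal h10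
      _ = volume ((GG n)ᶜ ∩ J) := by rw [hV, ENNReal.ofReal_toReal hfin]
      _ ≤ _ := by
          refine measure_mono (Set.inter_subset_inter_right _ ?_)
          intro x hx
          rw [Metric.mem_closedBall, Real.dist_eq, abs_le]
          constructor <;> linarith [hx.1, hx.2])
  refine ⟨(l - 1) / (2 * l) / 8, by positivity, ?_⟩
  filter_upwards [h1] with α hα h2 h3
  refine (hα h2 h3).mono fun N hN => ?_
  refine hN.trans (le_of_eq ?_)
  congr 1
  refine (Nat.subtype_card _ fun n => ?_).symm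
  simp only [Finset.mem_filter, Finset.mem_range]
  refine and_congr_right fun _ => ?_
  constructor
  · intro h i h4 h5 h6
    exact h ⟨i, h4, h5, h6⟩
  · rintro h ⟨i, h4, h5, h6⟩
    exact h i h4 h5 h6

end TOB
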